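import Pool.Agent.H74.PP.Targets
import Pool.Agent.H18.PZ.Fac

/-!
# The smooth Jensen formula (SE)
-/

set_option autoImplicit false

open Complex MeasureTheory Set Filter Topology

namespace Pool.Agent.H62.PP

open Pool.Agent.H74.PP

/-- analytic logarithms of zero free functions near compact convex sets -/
theorem exists_log {g : ℂ → ℂ} {R : Set ℂ} (hR : IsCompact R) (hRc : Convex ℝ R)
    (hg : ∀ s ∈ R, AnalyticAt ℂ g s ∧ g s ≠ 0) :
    ∃ G : ℂ → ℂ, ∀ s ∈ R, AnalyticAt ℂ G s ∧ g s = cexp (G s) := by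
  rcases R.eq_empty_or_nonempty with rfl | hne
  · exact ⟨0, fun s hs => absurd hs (notMem_empty s)⟩
  set O : Set ℂ := {s | AnalyticAt ℂ g s} ∩ g ⁻¹' {0}ᶜ with hO
  have hOo : IsOpen O :=
    ContinuousOn.isOpen_inter_preimage (fun s hs => hs.continuousAt.continuousWithinAt)
      (isOpen_analyticAt ℂ g) isOpen_compl_singleton
  obtain ⟨δ, hδ, hsub⟩ := hR.exists_thickening_subset_open hOo (fun s hs => hg s hs)
  have hV : IsOpen (Metric.thickening δ R) := Metric.isOpen_thickening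
  have hVc : Convex ℝ (Metric.thickening δ R) := hRc.thickening δ
  have hRV : R ⊆ Metric.thickening δ R := Metric.self_subset_thickening hδ R
  have : ContractibleSpace (Metric.thickening δ R) := hVc.contractibleSpace (hne.mono hRV)
  have hsc : IsSimplyConnected (Metric.thickening δ R) := by
    unfold IsSimplyConnected
    infer_instance
  obtain ⟨G, hGc, hG⟩ := exists_continuousOn_eqOn_exp_comp hsc hV (g := g)
    (fun s hs => (hsub hs).1.continuousAt.continuousWithinAt) (by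
      rintro ⟨s, hs, h0⟩
      exact (hsub hs).2 h0)
  have hana : ∀ s ∈ Metric.thickening δ R, AnalyticAt ℂ G s := by
    intro s hs
    have hgs := (hsub hs).1
    have hgs0 : g s ≠ 0 := (hsub hs).2
    have h1 : AnalyticAt ℂ (fun w => G s + Complex.log (g w / g s)) s := by
      apply analyticAt_const.add
      apply AnalyticAt.clog
      · exact hgs.div analyticAt_const hgs0
      · rw [div_self hgs0]
        exact one_mem_slitPlane
    refine h1.congr ?_
    have hcont : ContinuousAt G s := hGc.continuousAt (hV.mem_nhds hs)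
    have h2 : ∀ᶠ w in 𝓝 s, ‖G w - G s‖ < Real.pi := by
      have h3 : Tendsto (fun w => ‖G w - G s‖) (𝓝 s) (𝓝 0) := by
        have := (hcont.sub (continuousAt_const (y := G s))).norm
        simpa [ContinuousAt] using this
      exact h3.eventually_lt_const Real.pi_pos
    filter_upwards [h2, hV.mem_nhds hs] with w hw hwV
    have h4 : g w / g s = cexp (G w - G s) := by
      rw [Complex.exp_sub]
      have e1 := hG hwV
      have e2 := hG hs
      simp only [Function.comp_apply] at e1 e2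
      rw [e1, e2]
    have h5 := (Complex.abs_im_le_norm (G w - G s)).trans_lt hw
    rw [abs_lt] at h5
    show G s + Complex.log (g w / g s) = G w
    rw [h4, Complex.log_exp h5.1 h5.2.le]
    ring
  refine ⟨G, fun s hs => ⟨hana s (hRV hs), ?_⟩⟩
  have := hG (hRV hs)
  simpa using this.symm

theorem continuous_Lp {K : ℂ → ℂ} {θ η : ℝ → ℝ} (hK : Differentiable ℂ K) (hθ : ContDiff ℝ 2 θ)
    (hη : ContDiff ℝ 2 η) : Continuous (fun p : ℝ × ℝ => Lp K θ η p.1 p.2) := by
  have hK1 : Continuous K := hK.continuous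
  have hK2 : Continuous (deriv K) := by
    have : ContDiff ℂ 1 K := hK.contDiff
    exact this.continuous_deriv le_rfl
  have h0 : Continuous θ := hθ.continuous
  have h1 : Continuous (deriv θ) := hθ.continuous_deriv (by norm_num)
  have h2 : Continuous (deriv (deriv θ)) := by
    have h3 : ContDiff ℝ 1 (deriv θ) := by
      have h4 : ContDiff ℝ (1 + 1) θ := by
        rw [one_add_one_eq_two]
        exact hθ
      exact (contDiff_succ_iff_deriv.1 h4).2.2
    exact h3.continuous_deriv le_rfl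
  have g0 : Continuous η := hη.continuous
  have g1 : Continuous (deriv η) := hη.continuous_deriv (by norm_num)
  have g2 : Continuous (deriv (deriv η)) := by
    have h3 : ContDiff ℝ 1 (deriv η) := by
      have h4 : ContDiff ℝ (1 + 1) η := by
        rw [one_add_one_eq_two]
        exact hη
      exact (contDiff_succ_iff_deriv.1 h4).2.2
    exact h3.continuous_deriv le_rfl
  unfold Pool.Agent.H74.PP.Lp
  fun_prop

theorem rect_compact (x₁ x₂ u₁ u₂ : ℝ) :
    IsCompact {s : ℂ | s.re ∈ Icc x₁ x₂ ∧ s.im ∈ Icc u₁ u₂} :=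
  isCompact_Icc.reProdIm isCompact_Icc

theorem rect_convex (x₁ x₂ u₁ u₂ : ℝ) :
    Convex ℝ {s : ℂ | s.re ∈ Icc x₁ x₂ ∧ s.im ∈ Icc u₁ u₂} := by
  rintro a ⟨ha1, ha2⟩ b ⟨hb1, hb2⟩ s t hs ht hst
  have h1 := convex_Icc x₁ x₂ ha1 hb1 hs ht hst
  have h2 := convex_Icc u₁ u₂ ha2 hb2 hs ht hst
  refine ⟨?_, ?_⟩
  · simpa using h1
  · simpa using h2

theorem se (h1 : T_SEG) (h2 : T_SEL) : T_SE := by
  intro f K θ η x₁ x₂ u₁ u₂ Z hc hK hf hZ
  set R : Set ℂ := {s | s.re ∈ Icc x₁ x₂ ∧ s.im ∈ Icc u₁ u₂} with hR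
  obtain ⟨g, hg, hfg, hgz⟩ := Pool.Agent.H18.PZ.factor (U := R) (f := f)
    (fun s hs => (hf s hs.1 hs.2).1) Z (fun z hz => by
      have := (hZ z).1 hz
      exact ⟨⟨this.1, this.2.1⟩, (hf z this.1 this.2.1).2⟩)
  have hg0 : ∀ s ∈ R, AnalyticAt ℂ g s ∧ g s ≠ 0 := by
    intro s hs
    refine ⟨hg s hs, ?_⟩
    by_cases hsZ : s ∈ Z
    · exact hgz s hsZ
    · intro h0
      apply hsZ
      rw [hZ s]
      refine ⟨hs.1, hs.2, ?_⟩
      rw [hfg s, h0, mul_zero]
  obtain ⟨G, hG⟩ := exists_log (rect_compact x₁ x₂ u₁ u₂) (rect_convex x₁ x₂ u₁ u₂) hg0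
  set D : Set (ℝ × ℝ) := Icc x₁ x₂ ×ˢ Icc u₁ u₂ with hD
  have hDc : IsCompact D := isCompact_Icc.prod isCompact_Icc
  have hDm : MeasurableSet D := measurableSet_Icc.prod measurableSet_Icc
  have hmem : ∀ p : ℝ × ℝ, p ∈ D → ((p.1 : ℂ) + p.2 * I) ∈ R := by
    rintro ⟨x, u⟩ ⟨hx, hu⟩
    rw [hR, mem_ofPred_eq]
    simpa using ⟨hx, hu⟩
  have hphi : Continuous (fun p : ℝ × ℝ => (p.1 : ℂ) + p.2 * I) := by fun_prop
  have hGcont : ContinuousOn (fun p : ℝ × ℝ => (G (p.1 + p.2 * I)).re) D := by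
    intro p hp
    have h3 : ContinuousAt G ((p.1 : ℂ) + p.2 * I) := (hG _ (hmem p hp)).1.continuousAt
    have h4 : ContinuousAt (fun p : ℝ × ℝ => G ((p.1 : ℂ) + p.2 * I)) p :=
      ContinuousAt.comp (f := fun p : ℝ × ℝ => (p.1 : ℂ) + p.2 * I) h3 hphi.continuousAt
    exact (Complex.continuous_re.continuousAt.comp h4).continuousWithinAt
  have hGint : IntegrableOn (fun p : ℝ × ℝ => (G (p.1 + p.2 * I)).re) D :=
    hGcont.integrableOn_compact hDc
  -- the exceptional set
  have hnull : ∀ᵐ p ∂(volume.restrict D), ((p.1 : ℂ) + p.2 * I) ∉ Z := by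
    apply ae_restrict_of_ae
    have hfin : {p : ℝ × ℝ | ((p.1 : ℂ) + p.2 * I) ∈ Z}.Finite := by
      apply Set.Finite.preimage _ (Z.finite_toSet)
      rintro ⟨x, u⟩ - ⟨x', u'⟩ - h
      have e1 := congrArg Complex.re h
      have e2 := congrArg Complex.im h
      simp at e1 e2
      rw [e1, e2]
    have h0 : volume {p : ℝ × ℝ | ((p.1 : ℂ) + p.2 * I) ∈ Z} = 0 := hfin.measure_zero _
    rw [ae_iff]
    simpa using h0
  have hae : ∀ᵐ p ∂(volume.restrict D), Real.log ‖f (p.1 + p.2 * I)‖ =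
      (∑ z ∈ Z, (analyticOrderNatAt f z : ℝ) * Real.log ‖(p.1 : ℂ) + p.2 * I - z‖) +
        (G (p.1 + p.2 * I)).re := by
    filter_upwards [hnull, ae_restrict_mem hDm] with p hp hpD
    have e1 : ∏ z ∈ Z, ((p.1 : ℂ) + p.2 * I - z) ^ analyticOrderNatAt f z ≠ 0 := by
      rw [Finset.prod_ne_zero_iff]
      intro z hz
      apply pow_ne_zero
      rw [sub_ne_zero]
      rintro rfl
      exact hp hz
    rw [hfg, norm_mul, Real.log_mul (norm_ne_zero_iff.2 e1)
      (norm_ne_zero_iff.2 (hg0 _ (hmem p hpD)).2), (hG _ (hmem p hpD)).2, Complex.norm_exp,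
      Real.log_exp, norm_prod, Real.log_prod]
    · congr 1
      refine Finset.sum_congr rfl fun z _ => ?_
      rw [norm_pow, Real.log_pow]
    · intro z hz
      rw [norm_ne_zero_iff]
      exact (Finset.prod_ne_zero_iff.1 e1) z hz
  have hsel : ∀ z : ℂ, _ := fun z => h2 K θ η x₁ x₂ u₁ u₂ z hc hK
  have hint1 : ∀ z : ℂ, IntegrableOn (fun p : ℝ × ℝ => Real.log ‖(p.1 : ℂ) + p.2 * I - z‖) D :=
    fun z => (hsel z).1
  have hLc : Continuous (fun p : ℝ × ℝ => Lp K θ η p.1 p.2) := continuous_Lp hK hc.cθ hc.cη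
  have hmul : ∀ F : ℝ × ℝ → ℝ, IntegrableOn F D →
      IntegrableOn (fun p => ((F p : ℝ) : ℂ) * Lp K θ η p.1 p.2) D := by
    intro F hF
    have h3 : IntegrableOn (fun p => ((F p : ℝ) : ℂ)) D := hF.ofReal
    exact h3.mul_continuousOn hLc.continuousOn hDc
  constructor
  · have h3 : IntegrableOn (fun p : ℝ × ℝ =>
        (∑ z ∈ Z, (analyticOrderNatAt f z : ℝ) * Real.log ‖(p.1 : ℂ) + p.2 * I - z‖) +
        (G (p.1 + p.2 * I)).re) D := by
      apply Integrable.add _ hGint
      apply integrable_finsetSum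
      intro z _
      exact (hint1 z).const_mul _
    exact Integrable.congr h3 (by
      filter_upwards [hae] with p hp
      exact hp.symm)
  · have h3 : ∫ p in D, ((Real.log ‖f (p.1 + p.2 * I)‖ : ℝ) : ℂ) * Lp K θ η p.1 p.2 =
        ∫ p in D, ((∑ z ∈ Z, (analyticOrderNatAt f z : ℂ) *
          (((Real.log ‖(p.1 : ℂ) + p.2 * I - z‖ : ℝ) : ℂ) * Lp K θ η p.1 p.2)) +
            (((G (p.1 + p.2 * I)).re : ℝ) : ℂ) * Lp K θ η p.1 p.2) := by
      apply integral_congr_ae
      filter_upwards [hae] with p hp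
      rw [hp]
      push_cast
      rw [add_mul, Finset.sum_mul]
      congr 1
      exact Finset.sum_congr rfl fun z _ => by ring
    rw [h3, integral_add, h1 G K θ η x₁ x₂ u₁ u₂ hc hK (fun s hs1 hs2 => (hG s ⟨hs1, hs2⟩).1),
      add_zero, integral_finsetSum, Finset.mul_sum]
    · refine Finset.sum_congr rfl fun z _ => ?_
      rw [integral_const_mul, (hsel z).2]
      ring
    · intro z _
      exact (hmul _ (hint1 z)).const_mul _
    · apply integrable_finsetSum
      intro z _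
      exact (hmul _ (hint1 z)).const_mul _
    · exact hmul _ hGint

end Pool.Agent.H62.PP
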