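import Pool.Agent.H74.PP.Targets
import Pool.Agent.H74.PP.Basic

/-!
# The zero side in `L¹` (ZS)
-/

set_option autoImplicit false

open Complex MeasureTheory Set Filter Topology

namespace Pool.Agent.H62.PP

open Pool.Agent.H74.PP
open Pool.Agent.H23.GLH (PrimChar)

theorem et_nonneg (u : ℝ) : 0 ≤ et u :=
  mul_nonneg (Real.smoothTransition.nonneg _) (Real.smoothTransition.nonneg _)

theorem et_le_one (u : ℝ) : et u ≤ 1 :=
  mul_le_one₀ (Real.smoothTransition.le_one _) (Real.smoothTransition.nonneg _)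
    (Real.smoothTransition.le_one _)

/-- the symmetric second difference of the kernel -/
noncomputable def D2 (h v : ℝ) : ℂ := KK (h + v * I) + KK (-h + v * I) - 2 * KK (v * I)

theorem D2_abs (h v : ℝ) : D2 |h| v = D2 h v := by
  rcases abs_cases h with ⟨e, _⟩ | ⟨e, _⟩
  · rw [e]
  · rw [e]
    unfold D2
    push_cast
    rw [neg_neg]
    ring

/-- the contribution of one term -/
theorem one_term (hS : T_SYM) (hO : T_ORD) (π : PrimChar) (a τ T D t : ℝ) (ha : 0 < a)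
    (hT : 0 < T) (hτ : |τ| ≤ a * T / 8) (Y : Finset ℝ) (hY : ∀ y ∈ Y, T < y ∧ y < 2 * T)
    (hY2 : ∀ y, T < y → y < 2 * T → mo π (a * y + τ) ≠ 0 → y ∈ Y) :
    ∑ ρ ∈ ZF π (a * T + τ) (2 * (a * T) + τ),
      ((mu π ρ * et ((ρ.im - τ) / (a * T)) : ℝ) : ℂ) *
        KK ((D / a : ℝ) * (ρ - 1 / 2 - (a * t + τ : ℝ) * I)) =
    ∑ y ∈ Y, ((mo π (a * y + τ) : ℝ) : ℂ) * (et (y / T) * KK ((D * (y - t) : ℝ) * I)) +
      1 / 2 * ∑ ρ ∈ ZF π (a * T + τ) (2 * (a * T) + τ),
        ((mu π ρ * et ((ρ.im - τ) / (a * T)) : ℝ) : ℂ) *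
          D2 (D / a * |ρ.re - 1 / 2|) (D * ((ρ.im - τ) / a - t)) := by
  have hpos : 0 < a * T + τ := by
    have := (abs_le.1 hτ).1
    nlinarith [mul_pos ha hT]
  have haT : a * (2 * T) + τ = 2 * (a * T) + τ := by ring
  set Z := ZF π (a * T + τ) (2 * (a * T) + τ) with hZ
  set e : ℂ → ℂ := fun ρ => ((et ((ρ.im - τ) / (a * T)) : ℝ) : ℂ) with he
  -- the argument of the kernel
  have harg : ∀ ρ : ℂ, ((D / a : ℝ) : ℂ) * (ρ - 1 / 2 - (a * t + τ : ℝ) * I) =
      ((D / a * (ρ.re - 1 / 2) : ℝ) : ℂ) + ((D * ((ρ.im - τ) / a - t) : ℝ) : ℂ) * I := by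
    intro ρ
    have ha' : (a : ℂ) ≠ 0 := by exact_mod_cast ha.ne'
    nth_rewrite 1 [← Complex.re_add_im ρ]
    push_cast
    field_simp
    ring
  have hconj : ∀ ρ : ℂ, (1 - (starRingEnd ℂ) ρ).re = 1 - ρ.re ∧
      (1 - (starRingEnd ℂ) ρ).im = ρ.im := by
    intro ρ
    constructor <;> simp
  have hsym := hS π (a * T + τ) (2 * (a * T) + τ)
    (fun ρ => e ρ * KK ((D / a : ℝ) * (ρ - 1 / 2 - (a * t + τ : ℝ) * I))) hpos
  rw [← hZ] at hsym
  have hsym2 : ∑ ρ ∈ Z, (mu π ρ : ℂ) * (e ρ *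
        KK (((D / a * (ρ.re - 1 / 2) : ℝ) : ℂ) + ((D * ((ρ.im - τ) / a - t) : ℝ) : ℂ) * I)) =
      ∑ ρ ∈ Z, (mu π ρ : ℂ) * (e ρ *
        KK (-((D / a * (ρ.re - 1 / 2) : ℝ) : ℂ) + ((D * ((ρ.im - τ) / a - t) : ℝ) : ℂ) * I)) := by
    have h1 : ∀ ρ ∈ Z, (mu π ρ : ℂ) * (e ρ *
        KK (((D / a * (ρ.re - 1 / 2) : ℝ) : ℂ) + ((D * ((ρ.im - τ) / a - t) : ℝ) : ℂ) * I)) =
        (mu π ρ : ℂ) * (e ρ * KK ((D / a : ℝ) * (ρ - 1 / 2 - (a * t + τ : ℝ) * I))) := by
      intro ρ _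
      rw [harg]
    rw [Finset.sum_congr rfl h1, hsym]
    refine Finset.sum_congr rfl fun ρ _ => ?_
    rw [harg, (hconj ρ).1, (hconj ρ).2]
    have e1 : e (1 - (starRingEnd ℂ) ρ) = e ρ := by
      simp only [he, (hconj ρ).2]
    rw [e1]
    congr 3
    congr 1
    push_cast
    ring
  have hord := hO π a τ T (2 * T) (fun y => (et (y / T) : ℂ) * KK ((D * (y - t) : ℝ) * I)) Y
    ha hpos hY hY2
  rw [haT, ← hZ] at hord
  have hL : ∀ ρ ∈ Z, ((mu π ρ * et ((ρ.im - τ) / (a * T)) : ℝ) : ℂ) *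
        KK ((D / a : ℝ) * (ρ - 1 / 2 - (a * t + τ : ℝ) * I)) =
      (mu π ρ : ℂ) * (e ρ *
        KK (((D / a * (ρ.re - 1 / 2) : ℝ) : ℂ) + ((D * ((ρ.im - τ) / a - t) : ℝ) : ℂ) * I)) := by
    intro ρ _
    rw [harg]
    simp only [he]
    push_cast
    ring
  rw [Finset.sum_congr rfl hL]
  have h5 : ∑ y ∈ Y, ((mo π (a * y + τ) : ℝ) : ℂ) * (et (y / T) * KK ((D * (y - t) : ℝ) * I)) =
      ∑ ρ ∈ Z, (mu π ρ : ℂ) * (e ρ * KK (((D * ((ρ.im - τ) / a - t) : ℝ) : ℂ) * I)) := by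
    have h6 : ∀ y ∈ Y, ((mo π (a * y + τ) : ℝ) : ℂ) * (et (y / T) * KK ((D * (y - t) : ℝ) * I)) =
        (mo π (a * y + τ) : ℂ) * (fun y => (et (y / T) : ℂ) * KK ((D * (y - t) : ℝ) * I)) y := by
      intro y _
      dsimp only
      push_cast
      rfl
    rw [Finset.sum_congr rfl h6, ← hord]
    refine Finset.sum_congr rfl fun ρ _ => ?_
    simp only [he]
    rw [div_div]
  rw [h5]
  have h7 : ∀ ρ ∈ Z, ((mu π ρ * et ((ρ.im - τ) / (a * T)) : ℝ) : ℂ) *
          D2 (D / a * |ρ.re - 1 / 2|) (D * ((ρ.im - τ) / a - t)) =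
      (mu π ρ : ℂ) * (e ρ *
        KK (((D / a * (ρ.re - 1 / 2) : ℝ) : ℂ) + ((D * ((ρ.im - τ) / a - t) : ℝ) : ℂ) * I)) +
      (mu π ρ : ℂ) * (e ρ *
        KK (-((D / a * (ρ.re - 1 / 2) : ℝ) : ℂ) + ((D * ((ρ.im - τ) / a - t) : ℝ) : ℂ) * I)) -
      2 * ((mu π ρ : ℂ) * (e ρ * KK (((D * ((ρ.im - τ) / a - t) : ℝ) : ℂ) * I))) := by
    intro ρ _
    have h8 : D2 (D / a * |ρ.re - 1 / 2|) (D * ((ρ.im - τ) / a - t)) =
        D2 (D / a * (ρ.re - 1 / 2)) (D * ((ρ.im - τ) / a - t)) := by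
      rcases abs_cases (ρ.re - 1 / 2) with ⟨h9, _⟩ | ⟨h9, _⟩
      · rw [h9]
      · rw [h9, ← D2_abs, ← D2_abs (D / a * (ρ.re - 1 / 2))]
        congr 1
        rw [mul_neg, abs_neg]
    rw [h8]
    unfold D2
    simp only [he]
    push_cast
    ring
  rw [Finset.sum_congr rfl h7, Finset.sum_sub_distrib, Finset.sum_add_distrib, ← hsym2,
    ← Finset.mul_sum]
  ring

theorem zs (hF : T_OFF) (hO : T_ORD) (hS : T_SYM) : T_ZS := by
  classical
  obtain ⟨C, hC, hI0, hB0, hB2⟩ := hF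
  refine ⟨C, hC, ?_⟩
  intro ι _ F τ T D hT hD hτ
  have hpos : ∀ i, 0 < F.a i * T + τ i := by
    intro i
    have := (abs_le.1 (hτ i)).1
    nlinarith [mul_pos (F.a_pos i) hT]
  set Z : ι → Finset ℂ := fun i => ZF (F.π i) (F.a i * T + τ i) (2 * (F.a i * T) + τ i) with hZ
  set Y : Finset ℝ := (Finset.univ.biUnion fun i => (Z i).image fun ρ => (ρ.im - τ i) / F.a i).filter
    (fun y => ∃ i, mo (F.π i) (F.a i * y + τ i) ≠ 0) with hYdef
  have hYm : ∀ y, y ∈ Y ↔ T < y ∧ y < 2 * T ∧ ∃ i, mo (F.π i) (F.a i * y + τ i) ≠ 0 := by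
    intro y
    rw [hYdef, Finset.mem_filter, Finset.mem_biUnion]
    constructor
    · rintro ⟨⟨i, _, hi⟩, h2⟩
      rw [Finset.mem_image] at hi
      obtain ⟨ρ, hρ, rfl⟩ := hi
      have h3 := (mem_ZF (hpos i)).1 hρ
      have ha := F.a_pos i
      refine ⟨?_, ?_, h2⟩
      · rw [lt_div_iff₀ ha]
        linarith [h3.2.2.1]
      · rw [div_lt_iff₀ ha]
        linarith [h3.2.2.2.1]
    · rintro ⟨h1, h2, i, hi⟩
      refine ⟨⟨i, Finset.mem_univ i, ?_⟩, i, hi⟩
      have h3 : ∃ ρ : ℂ, 0 < ρ.re ∧ ρ.re < 1 ∧ ρ.im = F.a i * y + τ i ∧ (F.π i).L ρ = 0 := by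
        by_contra hno
        push Not at hno
        apply hi
        unfold mo
        apply finsum_mem_eq_zero_of_forall_eq_zero
        rintro ρ ⟨h4, h5, h6, h7⟩
        exact absurd h7 (hno ρ h4 h5 h6)
      obtain ⟨ρ, h4, h5, h6, h7⟩ := h3
      have ha := F.a_pos i
      rw [Finset.mem_image]
      refine ⟨ρ, (mem_ZF (hpos i)).2 ⟨h4, h5, ?_, ?_, h7⟩, ?_⟩
      · rw [h6]
        nlinarith
      · rw [h6]
        nlinarith
      · rw [h6]
        field_simp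
        ring
  refine ⟨Y, hYm, ?_⟩
  have hY1 : ∀ y ∈ Y, T < y ∧ y < 2 * T := fun y hy => ⟨((hYm y).1 hy).1, ((hYm y).1 hy).2.1⟩
  have hY2 : ∀ i, ∀ y, T < y → y < 2 * T → mo (F.π i) (F.a i * y + τ i) ≠ 0 → y ∈ Y :=
    fun i y h1 h2 h3 => (hYm y).2 ⟨h1, h2, i, h3⟩
  set c : ℝ → ℝ := fun y => et (y / T) * |F.tot τ y| with hc
  set M : ℝ → ℝ := fun t => ∑ y ∈ Y, c y * ‖KK ((D * (y - t) : ℝ) * I)‖ +
    ∑ i, ∑ ρ ∈ Z i, mu (F.π i) ρ *
      ‖D2 (D / F.a i * |ρ.re - 1 / 2|) (D * ((ρ.im - τ i) / F.a i - t))‖ with hM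
  -- the pointwise bound
  have hpt : ∀ t, ‖F.D τ D T t‖ ≤ M t := by
    intro t
    have h1 : F.D τ D T t = ∑ y ∈ Y, ((et (y / T) * F.tot τ y : ℝ) : ℂ) *
          KK ((D * (y - t) : ℝ) * I) +
        ∑ i, ((F.ε i : ℝ) : ℂ) * (1 / 2 * ∑ ρ ∈ Z i,
          ((mu (F.π i) ρ * et ((ρ.im - τ i) / (F.a i * T)) : ℝ) : ℂ) *
            D2 (D / F.a i * |ρ.re - 1 / 2|) (D * ((ρ.im - τ i) / F.a i - t))) := by
      unfold Fam.D
      have h2 : ∀ i ∈ Finset.univ, (F.ε i : ℂ) * ∑ ρ ∈ ZF (F.π i) (F.a i * T + τ i)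
            (2 * (F.a i * T) + τ i), (mu (F.π i) ρ * et ((ρ.im - τ i) / (F.a i * T)) : ℝ) *
          KK ((D / F.a i : ℝ) * (ρ - 1 / 2 - (F.a i * t + τ i : ℝ) * I)) =
          (∑ y ∈ Y, (F.ε i : ℂ) * (((mo (F.π i) (F.a i * y + τ i) : ℝ) : ℂ) *
            (et (y / T) * KK ((D * (y - t) : ℝ) * I)))) +
          (F.ε i : ℂ) * (1 / 2 * ∑ ρ ∈ Z i,
          ((mu (F.π i) ρ * et ((ρ.im - τ i) / (F.a i * T)) : ℝ) : ℂ) *
            D2 (D / F.a i * |ρ.re - 1 / 2|) (D * ((ρ.im - τ i) / F.a i - t))) := by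
        intro i _
        rw [one_term hS hO (F.π i) (F.a i) (τ i) T D t (F.a_pos i) hT (hτ i) Y hY1 (hY2 i),
          mul_add, Finset.mul_sum]
      rw [Finset.sum_congr rfl h2, Finset.sum_add_distrib, Finset.sum_comm]
      congr 1
      refine Finset.sum_congr rfl fun y _ => ?_
      unfold Fam.tot
      push_cast
      rw [Finset.mul_sum, Finset.sum_mul]
      refine Finset.sum_congr rfl fun i _ => ?_
      ring
    rw [h1]
    refine (norm_add_le _ _).trans ?_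
    apply add_le_add
    · refine (norm_sum_le _ _).trans (Finset.sum_le_sum fun y _ => ?_)
      rw [norm_mul, Complex.norm_real, Real.norm_eq_abs, abs_mul, abs_of_nonneg (et_nonneg _)]
    · refine (norm_sum_le _ _).trans (Finset.sum_le_sum fun i _ => ?_)
      have hε : ‖((F.ε i : ℝ) : ℂ)‖ = 1 := by
        rw [Complex.norm_real]
        rcases F.ε_eq i with h | h <;> rw [h] <;> simp
      rw [norm_mul, hε, one_mul, norm_mul]
      have h3 : ‖(1 / 2 : ℂ)‖ = 1 / 2 := by norm_num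
      rw [h3]
      have h4 : ‖∑ ρ ∈ Z i, ((mu (F.π i) ρ * et ((ρ.im - τ i) / (F.a i * T)) : ℝ) : ℂ) *
            D2 (D / F.a i * |ρ.re - 1 / 2|) (D * ((ρ.im - τ i) / F.a i - t))‖ ≤
          ∑ ρ ∈ Z i, mu (F.π i) ρ *
            ‖D2 (D / F.a i * |ρ.re - 1 / 2|) (D * ((ρ.im - τ i) / F.a i - t))‖ := by
        refine (norm_sum_le _ _).trans (Finset.sum_le_sum fun ρ _ => ?_)
        rw [norm_mul, Complex.norm_real, Real.norm_eq_abs,
          abs_of_nonneg (mul_nonneg (mu_nonneg _ _) (et_nonneg _))]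
        apply mul_le_mul_of_nonneg_right _ (norm_nonneg _)
        calc mu (F.π i) ρ * et ((ρ.im - τ i) / (F.a i * T)) ≤ mu (F.π i) ρ * 1 :=
              mul_le_mul_of_nonneg_left (et_le_one _) (mu_nonneg _ _)
          _ = mu (F.π i) ρ := mul_one _
      have h5 := (norm_nonneg (∑ ρ ∈ Z i, ((mu (F.π i) ρ * et ((ρ.im - τ i) / (F.a i * T)) : ℝ) : ℂ) *
            D2 (D / F.a i * |ρ.re - 1 / 2|) (D * ((ρ.im - τ i) / F.a i - t)))).trans h4
      linarith
  -- change of variables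
  have hcv : ∀ (G : ℝ → ℂ) (y : ℝ), Integrable G →
      Integrable (fun t => ‖G (D * (y - t))‖) ∧
      ∫ t, ‖G (D * (y - t))‖ = 1 / D * ∫ v, ‖G v‖ := by
    intro G y hG
    have h1 : Integrable (fun s => ‖G (D * s)‖) := (hG.comp_mul_left' hD.ne').norm
    refine ⟨h1.comp_sub_left y, ?_⟩
    rw [integral_sub_left_eq_self (fun s => ‖G (D * s)‖) volume y,
      Measure.integral_comp_mul_left (fun s => ‖G s‖) D, smul_eq_mul,
      abs_of_pos (inv_pos.2 hD), one_div]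
  have hMint : Integrable M := by
    apply Integrable.add
    · apply integrable_finsetSum
      intro y _
      exact (hcv (fun v => KK (v * I)) y hI0).1.const_mul _
    · apply integrable_finsetSum
      intro i _
      apply integrable_finsetSum
      intro ρ _
      have h0 : 0 ≤ D / F.a i * |ρ.re - 1 / 2| :=
        mul_nonneg (div_pos hD (F.a_pos i)).le (abs_nonneg _)
      exact (hcv (fun v => D2 (D / F.a i * |ρ.re - 1 / 2|) v) ((ρ.im - τ i) / F.a i)
        (hB2 _ h0).1).1.const_mul _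
  have hM0 : ∀ t, 0 ≤ M t := fun t => (norm_nonneg _).trans (hpt t)
  have h57 : 5 * T / 4 ≤ 7 * T / 4 := by linarith
  calc ∫ t in (5 * T / 4)..(7 * T / 4), ‖F.D τ D T t‖
      = ∫ t in Ioc (5 * T / 4) (7 * T / 4), ‖F.D τ D T t‖ :=
        intervalIntegral.integral_of_le h57
    _ ≤ ∫ t in Ioc (5 * T / 4) (7 * T / 4), M t := by
        apply integral_mono_of_nonneg
        · exact Eventually.of_forall fun t => norm_nonneg _
        · exact hMint.integrableOn
        · exact Eventually.of_forall hpt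
    _ ≤ ∫ t, M t := setIntegral_le_integral hMint (Eventually.of_forall hM0)
    _ = ∑ y ∈ Y, c y * (1 / D * ∫ v : ℝ, ‖KK (v * I)‖) +
        ∑ i, ∑ ρ ∈ Z i, mu (F.π i) ρ * (1 / D * ∫ v, ‖D2 (D / F.a i * |ρ.re - 1 / 2|) v‖) := by
        simp only [hM]
        rw [integral_add, integral_finsetSum, integral_finsetSum]
        · congr 1
          · refine Finset.sum_congr rfl fun y _ => ?_
            rw [integral_const_mul, (hcv (fun v => KK (v * I)) y hI0).2]
          · refine Finset.sum_congr rfl fun i _ => ?_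
            rw [integral_finsetSum]
            · refine Finset.sum_congr rfl fun ρ _ => ?_
              have h0 : 0 ≤ D / F.a i * |ρ.re - 1 / 2| :=
                mul_nonneg (div_pos hD (F.a_pos i)).le (abs_nonneg _)
              rw [integral_const_mul, (hcv (fun v => D2 (D / F.a i * |ρ.re - 1 / 2|) v)
                ((ρ.im - τ i) / F.a i) (hB2 _ h0).1).2]
            · intro ρ _
              have h0 : 0 ≤ D / F.a i * |ρ.re - 1 / 2| :=
                mul_nonneg (div_pos hD (F.a_pos i)).le (abs_nonneg _)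
              exact (hcv (fun v => D2 (D / F.a i * |ρ.re - 1 / 2|) v) ((ρ.im - τ i) / F.a i)
                (hB2 _ h0).1).1.const_mul _
        · intro i _
          apply integrable_finsetSum
          intro ρ _
          have h0 : 0 ≤ D / F.a i * |ρ.re - 1 / 2| :=
            mul_nonneg (div_pos hD (F.a_pos i)).le (abs_nonneg _)
          exact (hcv (fun v => D2 (D / F.a i * |ρ.re - 1 / 2|) v) ((ρ.im - τ i) / F.a i)
            (hB2 _ h0).1).1.const_mul _
        · intro y _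
          exact (hcv (fun v => KK (v * I)) y hI0).1.const_mul _
        · apply integrable_finsetSum
          intro y _
          exact (hcv (fun v => KK (v * I)) y hI0).1.const_mul _
        · apply integrable_finsetSum
          intro i _
          apply integrable_finsetSum
          intro ρ _
          have h0 : 0 ≤ D / F.a i * |ρ.re - 1 / 2| :=
            mul_nonneg (div_pos hD (F.a_pos i)).le (abs_nonneg _)
          exact (hcv (fun v => D2 (D / F.a i * |ρ.re - 1 / 2|) v) ((ρ.im - τ i) / F.a i)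
            (hB2 _ h0).1).1.const_mul _
    _ ≤ ∑ y ∈ Y, c y * (1 / D * C) +
        ∑ i, ∑ ρ ∈ Z i, mu (F.π i) ρ * (1 / D * (C * ((D / F.a i * |ρ.re - 1 / 2|) ^ 2 *
              Real.exp (D / F.a i * |ρ.re - 1 / 2|)))) := by
        have hD' : 0 ≤ 1 / D := by positivity
        apply add_le_add
        · refine Finset.sum_le_sum fun y _ => ?_
          apply mul_le_mul_of_nonneg_left _ (mul_nonneg (et_nonneg _) (abs_nonneg _))
          exact mul_le_mul_of_nonneg_left hB0 hD'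
        · refine Finset.sum_le_sum fun i _ => Finset.sum_le_sum fun ρ _ => ?_
          have h0 : 0 ≤ D / F.a i * |ρ.re - 1 / 2| :=
            mul_nonneg (div_pos hD (F.a_pos i)).le (abs_nonneg _)
          apply mul_le_mul_of_nonneg_left _ (mu_nonneg _ _)
          exact mul_le_mul_of_nonneg_left (hB2 _ h0).2 hD'
    _ = _ := by
        rw [mul_add, Finset.mul_sum, Finset.mul_sum]
        congr 1
        · refine Finset.sum_congr rfl fun y _ => ?_
          simp only [hc]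
          ring
        · refine Finset.sum_congr rfl fun i _ => ?_
          rw [Finset.mul_sum]
          refine Finset.sum_congr rfl fun ρ _ => ?_
          ring

end Pool.Agent.H62.PP
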