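import Pool.Agent.H74.PP.Targets
import Pool.Agent.H74.PP.Basic
import Pool.Agent.H62.PP.SE
import Pool.Agent.H62.PP.ZS

/-!
# The explicit formula in the mean (EF)
-/

set_option autoImplicit false

open Complex MeasureTheory Set Filter Topology

namespace Pool.Agent.H62.PP

open Pool.Agent.H74.PP
open Pool.Agent.H23.GLH (PrimChar)
open Pool.Agent.H28.MZ (T_OR)

theorem zeros_in (hOR : T_OR) (π : PrimChar) {ρ : ℂ} (h : 0 < ρ.im) (h0 : π.L ρ = 0) :
    0 < ρ.re ∧ ρ.re < 1 := by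
  have hne : ∀ s : ℂ, 0 < s.im → s ≠ 1 := by
    rintro s hs rfl
    simp at hs
  have h1 : ρ.re < 1 := by
    by_contra hc
    exact L_ne_of_one_le π (not_lt.1 hc) (hne ρ h) h0
  refine ⟨?_, h1⟩
  by_contra hc
  push Not at hc
  have h2 := (hOR π ρ h).1
  have h3 : (1 - (starRingEnd ℂ) ρ).im = ρ.im := by simp
  have h4 : (1 - (starRingEnd ℂ) ρ).re = 1 - ρ.re := by simp
  have h5 : π.L (1 - (starRingEnd ℂ) ρ) ≠ 0 :=
    L_ne_of_one_le π (by rw [h4]; linarith) (hne _ (by rw [h3]; exact h))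
  have h6 := (an_L π (hne (1 - (starRingEnd ℂ) ρ) (by rw [h3]; exact h))).analyticOrderAt_eq_zero.2 h5
  rw [h6] at h2
  exact (an_L π (hne ρ h)).analyticOrderAt_eq_zero.1 h2 h0

theorem order_shift (π : PrimChar) (z : ℂ) :
    analyticOrderAt (fun s => π.L (1 / 2 + s)) z = analyticOrderAt π.L (1 / 2 + z) := by
  have hg : AnalyticAt ℂ (fun s : ℂ => 1 / 2 + s) z := by fun_prop
  have hg' : deriv (fun s : ℂ => 1 / 2 + s) z ≠ 0 := by
    rw [deriv_const_add, deriv_id'']
    exact one_ne_zero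
  exact analyticOrderAt_comp_of_deriv_ne_zero (f := π.L) hg hg'

theorem th_one {x : ℝ} (h : |x| ≤ 1) : th x = 1 := by
  rw [abs_le] at h
  unfold th
  rw [Real.smoothTransition.one_of_one_le (by linarith),
    Real.smoothTransition.one_of_one_le (by linarith), one_mul]

theorem th_zero {x : ℝ} (h : x ∉ Ioo (-2) 2) : th x = 0 := by
  unfold th
  by_cases h1 : 2 ≤ x
  · rw [Real.smoothTransition.zero_of_nonpos (by linarith), zero_mul]
  · have h2 : x ≤ -2 := by
      by_contra h3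
      exact h ⟨not_le.1 h3, not_le.1 h1⟩
    rw [Real.smoothTransition.zero_of_nonpos (x := 2 + x) (by linarith), mul_zero]

theorem et_zero {x : ℝ} (h : x ∉ Ioo 1 2) : et x = 0 := by
  unfold et
  by_cases h1 : 2 ≤ x
  · rw [Real.smoothTransition.zero_of_nonpos (x := 8 * (2 - x)) (by linarith), mul_zero]
  · have h2 : x ≤ 1 := by
      by_contra h3
      exact h ⟨not_le.1 h3, not_le.1 h1⟩
    rw [Real.smoothTransition.zero_of_nonpos (x := 8 * (x - 1)) (by linarith), zero_mul]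

theorem th_contDiff : ContDiff ℝ 2 th := by
  unfold th
  apply ContDiff.mul
  · exact Real.smoothTransition.contDiff.comp (by fun_prop)
  · exact Real.smoothTransition.contDiff.comp (by fun_prop)

theorem et_contDiff : ContDiff ℝ 2 et := by
  unfold et
  apply ContDiff.mul
  · exact Real.smoothTransition.contDiff.comp (by fun_prop)
  · exact Real.smoothTransition.contDiff.comp (by fun_prop)

theorem ef_contDiff (X τ : ℝ) : ContDiff ℝ 2 (ef X τ) := by
  unfold ef
  exact et_contDiff.comp (by fun_prop)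

theorem ef_zero {X τ u : ℝ} (hX : 0 < X) (h : u ∉ Ioo (X + τ) (2 * X + τ)) : ef X τ u = 0 := by
  unfold ef
  apply et_zero
  intro hc
  apply h
  have h1 := (lt_div_iff₀ hX).1 hc.1
  have h2 := (div_lt_iff₀ hX).1 hc.2
  exact ⟨by linarith, by linarith⟩

theorem cut_ef {X τ : ℝ} (hX : 0 < X) : Cut th (ef X τ) (-2) 2 (X + τ) (2 * X + τ) where
  hx := by norm_num
  hu := by linarith
  cθ := th_contDiff
  cη := ef_contDiff X τ
  zθ := fun _ h => th_zero h
  zη := fun _ h => ef_zero hX h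

/-- splitting the rectangle -/
theorem split_rect {g : ℝ × ℝ → ℂ} {a b c : ℝ} (hab : a ≤ b) (hbc : b ≤ c) (J : Set ℝ)
    (hJ : MeasurableSet J) (hg : IntegrableOn g (Icc a c ×ˢ J)) :
    ∫ p in Icc a c ×ˢ J, g p = (∫ p in Icc a b ×ˢ J, g p) + ∫ p in Icc b c ×ˢ J, g p := by
  have h1 : Icc a c ×ˢ J = (Icc a b ×ˢ J) ∪ (Icc b c ×ˢ J) := by
    rw [← Set.union_prod, Icc_union_Icc_eq_Icc hab hbc]
  have h2 : IntegrableOn g (Icc a b ×ˢ J) := hg.mono_set (by rw [h1]; exact subset_union_left)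
  have h3 : IntegrableOn g (Icc b c ×ˢ J) := hg.mono_set (by rw [h1]; exact subset_union_right)
  rw [h1, setIntegral_union₀ _ (measurableSet_Icc.prod hJ).nullMeasurableSet h2 h3]
  have h4 : (Icc a b ×ˢ J) ∩ (Icc b c ×ˢ J) ⊆ ({b} : Set ℝ) ×ˢ (univ : Set ℝ) := by
    rintro ⟨x, u⟩ ⟨⟨h5, _⟩, h6, _⟩
    exact ⟨le_antisymm h5.2 h6.1, mem_univ _⟩
  unfold AEDisjoint
  refine measure_mono_null h4 ?_
  rw [Measure.volume_eq_prod, Measure.prod_prod]
  simp

theorem ef_thm (hOR : T_OR) (hKB : T_KB) (hSE : T_SE) (hER : T_ER) (hEL : T_EL) :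
    T_EF := by
  intro π
  obtain ⟨C₁, X₁, hC₁, hER⟩ := hER π
  obtain ⟨C₂, X₂, hC₂, hEL⟩ := hEL π
  refine ⟨C₁ + C₂, max 2 (max X₁ X₂), by positivity, ?_⟩
  intro X l τ hX hl hlX hτ
  have hX2 : 2 ≤ X := (le_max_left _ _).trans hX
  have hX1 : X₁ ≤ X := (le_max_left _ _).trans ((le_max_right _ _).trans hX)
  have hX3 : X₂ ≤ X := (le_max_right _ _).trans ((le_max_right _ _).trans hX)
  have hX0 : 0 < X := by linarith
  have hτ' := abs_le.1 hτ
  obtain ⟨hELi, hELb⟩ := hEL X l τ hX3 hl hlX hτ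
  have hpos : 0 < X + τ := by linarith
  set J : Set ℝ := Icc (X + τ) (2 * X + τ) with hJ
  set f : ℂ → ℂ := fun z => π.L (1 / 2 + z) with hf
  set S : ℝ → ℂ := fun t => ∑ ρ ∈ ZF π (X + τ) (2 * X + τ),
    ((mu π ρ * et ((ρ.im - τ) / X) : ℝ) : ℂ) * KK (l * (ρ - 1 / 2 - t * I)) with hS
  set EL : ℝ → ℂ := fun t => ∫ p in Icc (-2 : ℝ) 1 ×ˢ J,
    ((Real.log ‖π.L (1 / 2 + (p.1 + p.2 * I))‖ : ℝ) : ℂ) * Lp (Kf l t) th (ef X τ) p.1 p.2 with hELd
  set ER : ℝ → ℂ := fun t => ∫ p in Icc (1 : ℝ) 2 ×ˢ J,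
    ((Real.log ‖π.L (1 / 2 + (p.1 + p.2 * I))‖ : ℝ) : ℂ) * Lp (Kf l t) th (ef X τ) p.1 p.2 with hERd
  have hne : ∀ s : ℂ, 0 < s.im → s ≠ 1 := by
    rintro s hs rfl
    simp at hs
  have him : ∀ s : ℂ, (1 / 2 + s).im = s.im := by
    intro s
    simp
  have hre : ∀ s : ℂ, (1 / 2 + s).re = 1 / 2 + s.re := by
    intro s
    simp
  -- the zeros in the closed rectangle
  set Z' : Finset ℂ := ((ZF π ((X + τ) / 2) (2 * X + τ + 1)).image (fun ρ => ρ - 1 / 2)).filter
    (fun z => z.im ∈ J) with hZ'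
  have hZm : ∀ s : ℂ, s ∈ Z' ↔ s.re ∈ Icc (-2 : ℝ) 2 ∧ s.im ∈ J ∧ f s = 0 := by
    intro s
    rw [hZ', Finset.mem_filter, Finset.mem_image]
    constructor
    · rintro ⟨⟨ρ, hρ, rfl⟩, h2⟩
      rw [mem_ZF (by linarith)] at hρ
      refine ⟨?_, h2, ?_⟩
      · have : (ρ - 1 / 2).re = ρ.re - 1 / 2 := by simp
        rw [this]
        exact ⟨by linarith [hρ.1], by linarith [hρ.2.1]⟩
      · simp only [hf]
        rw [add_sub_cancel]
        exact hρ.2.2.2.2
    · rintro ⟨h1, h2, h3⟩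
      refine ⟨⟨1 / 2 + s, ?_, by ring⟩, h2⟩
      have h4 : 0 < (1 / 2 + s).im := by
        rw [him]
        linarith [h2.1]
      have h5 := zeros_in hOR π h4 h3
      rw [mem_ZF (by linarith)]
      refine ⟨h5.1, h5.2, ?_, ?_, h3⟩
      · rw [him]
        linarith [h2.1]
      · rw [him]
        linarith [h2.2]
  have hana : ∀ s : ℂ, s.re ∈ Icc (-2 : ℝ) 2 → s.im ∈ J →
      AnalyticAt ℂ f s ∧ analyticOrderAt f s ≠ ⊤ := by
    intro s _ h2
    have h4 : 0 < (1 / 2 + s).im := by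
      rw [him]
      linarith [h2.1]
    constructor
    · have h5 : AnalyticAt ℂ π.L (1 / 2 + s) := an_L π (hne _ h4)
      have h6 : AnalyticAt ℂ (fun z : ℂ => 1 / 2 + z) s := by fun_prop
      exact h5.fun_comp h6
    · simp only [hf]
      rw [order_shift π]
      exact order_ne_top π (hne _ h4)
  have hKf : ∀ t : ℝ, Differentiable ℂ (Kf l t) := by
    intro t
    unfold Kf
    exact hKB.1.comp (by fun_prop)
  -- the identity
  have hid : ∀ t : ℝ, 2 * Real.pi * S t = EL t + ER t := by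
    intro t
    obtain ⟨h1, h2⟩ := hSE f (Kf l t) th (ef X τ) (-2) 2 (X + τ) (2 * X + τ) Z' (cut_ef hX0)
      (hKf t) hana hZm
    have h3 : IntegrableOn (fun p : ℝ × ℝ => ((Real.log ‖f (p.1 + p.2 * I)‖ : ℝ) : ℂ) *
        Lp (Kf l t) th (ef X τ) p.1 p.2) (Icc (-2) 2 ×ˢ J) := by
      have h4 : IntegrableOn (fun p : ℝ × ℝ => ((Real.log ‖f (p.1 + p.2 * I)‖ : ℝ) : ℂ))
        (Icc (-2) 2 ×ˢ J) := h1.ofReal
      exact h4.mul_continuousOn (continuous_Lp (hKf t) th_contDiff (ef_contDiff X τ)).continuousOn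
        (isCompact_Icc.prod isCompact_Icc)
    rw [split_rect (by norm_num : (-2 : ℝ) ≤ 1) (by norm_num) J measurableSet_Icc h3] at h2
    show 2 * Real.pi * S t = _
    rw [show EL t + ER t = _ from h2]
    congr 1
    -- compare the sums
    have h5 : ∑ ρ ∈ Z', (analyticOrderNatAt f ρ : ℂ) *
          (((th ρ.re * ef X τ ρ.im : ℝ) : ℂ) * Kf l t ρ) =
        ∑ ρ ∈ (ZF π (X + τ) (2 * X + τ)).image (fun ρ => ρ - 1 / 2), (analyticOrderNatAt f ρ : ℂ) *
          (((th ρ.re * ef X τ ρ.im : ℝ) : ℂ) * Kf l t ρ) := by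
      symm
      apply Finset.sum_subset
      · intro s hs
        rw [Finset.mem_image] at hs
        obtain ⟨ρ, hρ, rfl⟩ := hs
        rw [mem_ZF hpos] at hρ
        rw [hZm]
        have e1 : (ρ - 1 / 2).re = ρ.re - 1 / 2 := by simp
        have e2 : (ρ - 1 / 2).im = ρ.im := by simp
        refine ⟨?_, ?_, ?_⟩
        · rw [e1]
          exact ⟨by linarith [hρ.1], by linarith [hρ.2.1]⟩
        · rw [e2]
          exact ⟨hρ.2.2.1.le, hρ.2.2.2.1.le⟩
        · simp only [hf]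
          rw [add_sub_cancel]
          exact hρ.2.2.2.2
      · intro s hs hs2
        have h6 : ef X τ s.im = 0 := by
          apply ef_zero hX0
          intro h7
          apply hs2
          rw [Finset.mem_image]
          refine ⟨1 / 2 + s, ?_, by ring⟩
          have h8 := (hZm s).1 hs
          have h4 : 0 < (1 / 2 + s).im := by
            rw [him]
            linarith [h7.1]
          have h5 := zeros_in hOR π h4 h8.2.2
          rw [mem_ZF hpos, him]
          exact ⟨h5.1, h5.2, h7.1, h7.2, h8.2.2⟩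
        rw [h6]
        simp
    rw [h5, Finset.sum_image (by
      intro a _ b _ hab
      exact sub_left_injective hab)]
    simp only [hS]
    refine Finset.sum_congr rfl fun ρ hρ => ?_
    rw [mem_ZF hpos] at hρ
    have e1 : (ρ - 1 / 2).re = ρ.re - 1 / 2 := by simp
    have e2 : (ρ - 1 / 2).im = ρ.im := by simp
    have e3 : (1 / 2 + (ρ - 1 / 2) : ℂ) = ρ := by ring
    have e4 : analyticOrderNatAt f (ρ - 1 / 2) = analyticOrderNatAt π.L ρ := by
      unfold analyticOrderNatAt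
      simp only [hf]
      rw [order_shift π, e3]
    rw [e4, e1, e2, th_one (by rw [abs_le]; constructor <;> linarith [hρ.1, hρ.2.1]), one_mul]
    unfold mu ef Kf
    push_cast
    ring
  -- the bound
  have h57 : 5 * X / 4 + τ ≤ 7 * X / 4 + τ := by linarith
  have hpi : 3 < Real.pi := Real.pi_gt_three
  have hpt : ∀ t ∈ Ioc (5 * X / 4 + τ) (7 * X / 4 + τ), ‖S t + Pr π l t‖ ≤ ‖EL t‖ + C₁ / X := by
    intro t ht
    have h1 := hER X l τ t hX1 hl hlX hτ ht.1.le ht.2
    have h2 : 2 * Real.pi * (S t + Pr π l t) = EL t + (ER t + 2 * Real.pi * Pr π l t) := by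
      rw [mul_add, hid]
      ring
    have h3 : ‖(2 * Real.pi : ℂ)‖ = 2 * Real.pi := by
      rw [norm_mul, Complex.norm_real, Real.norm_of_nonneg Real.pi_pos.le]
      norm_num
    have h4 : 2 * Real.pi * ‖S t + Pr π l t‖ ≤ ‖EL t‖ + C₁ / X := by
      rw [← h3, ← norm_mul, h2]
      exact (norm_add_le _ _).trans (add_le_add le_rfl h1)
    nlinarith [norm_nonneg (S t + Pr π l t)]
  have hint : IntervalIntegrable (fun t => ‖EL t‖ + C₁ / X) volume (5 * X / 4 + τ)
      (7 * X / 4 + τ) := hELi.add intervalIntegrable_const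
  calc ∫ t in (5 * X / 4 + τ)..(7 * X / 4 + τ), ‖S t + Pr π l t‖
      = ∫ t in Ioc (5 * X / 4 + τ) (7 * X / 4 + τ), ‖S t + Pr π l t‖ :=
        intervalIntegral.integral_of_le h57
    _ ≤ ∫ t in Ioc (5 * X / 4 + τ) (7 * X / 4 + τ), (‖EL t‖ + C₁ / X) := by
        apply integral_mono_of_nonneg
        · exact Eventually.of_forall fun t => norm_nonneg _
        · exact (intervalIntegrable_iff_integrableOn_Ioc_of_le h57).1 hint
        · filter_upwards [ae_restrict_mem measurableSet_Ioc] with t ht using hpt t ht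
    _ = ∫ t in (5 * X / 4 + τ)..(7 * X / 4 + τ), (‖EL t‖ + C₁ / X) :=
        (intervalIntegral.integral_of_le h57).symm
    _ = (∫ t in (5 * X / 4 + τ)..(7 * X / 4 + τ), ‖EL t‖) + X / 2 * (C₁ / X) := by
        rw [intervalIntegral.integral_add hELi intervalIntegrable_const,
          intervalIntegral.integral_const, smul_eq_mul]
        ring
    _ ≤ C₂ * (X * Real.log X * Real.exp (-(l / 4)) + 1) + C₁ / 2 := by
        have h5 : X / 2 * (C₁ / X) = C₁ / 2 := by
          field_simp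
        rw [h5]
        linarith
    _ ≤ (C₁ + C₂) * (X * Real.log X * Real.exp (-(l / 4)) + 1) := by
        have h6 : 0 ≤ X * Real.log X * Real.exp (-(l / 4)) := by
          have := Real.log_nonneg (by linarith : (1 : ℝ) ≤ X)
          positivity
        nlinarith [mul_nonneg hC₁.le h6]

end Pool.Agent.H62.PP
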