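import Pool.Agent.H62.PP.ERb
import Pool.Agent.H73.PP.PD

/-!
# The right side of the rectangle (ER)
-/

set_option autoImplicit false

open Complex MeasureTheory Set Filter Topology

namespace Pool.Agent.H62.PP

open Pool.Agent.H74.PP
open Pool.Agent.H23.GLH (PrimChar)
open Pool.Agent.H28.MZ (co)

/-- the coefficient of the frequency `log n` -/
noncomputable def An (π : PrimChar) (n : ℕ) : ℂ :=
  ((ArithmeticFunction.vonMangoldt n / Real.log n : ℝ) : ℂ) * co π n *
    (((n : ℝ) ^ (-(1 / 2 : ℝ)) : ℝ) : ℂ)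

theorem ratio_le (n : ℕ) : |ArithmeticFunction.vonMangoldt n / Real.log n| ≤ 1 := by
  have h1 : 0 ≤ Real.log n := Real.log_natCast_nonneg n
  have h2 : ArithmeticFunction.vonMangoldt n ≤ Real.log n := ArithmeticFunction.vonMangoldt_le_log
  rw [abs_of_nonneg (div_nonneg ArithmeticFunction.vonMangoldt_nonneg h1)]
  exact div_le_one_of_le₀ h2 h1

theorem An_norm (π : PrimChar) {n : ℕ} (hn : 1 ≤ n) :
    ‖An π n‖ * Real.exp (-Real.log n) ≤ (n : ℝ) ^ (-(3 / 2 : ℝ)) := by
  have hn0 : (0 : ℝ) < n := by exact_mod_cast hn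
  unfold An
  rw [norm_mul, norm_mul, Complex.norm_real, Complex.norm_real, Real.norm_eq_abs,
    Real.norm_of_nonneg (by positivity : 0 ≤ (n : ℝ) ^ (-(1 / 2 : ℝ)))]
  have h1 : Real.exp (-Real.log n) = (n : ℝ) ^ (-(1 : ℝ)) := by
    rw [Real.rpow_def_of_pos hn0]
    congr 1
    ring
  rw [h1]
  calc |ArithmeticFunction.vonMangoldt n / Real.log n| * ‖co π n‖ * (n : ℝ) ^ (-(1 / 2 : ℝ)) *
        (n : ℝ) ^ (-(1 : ℝ)) ≤ 1 * 1 * (n : ℝ) ^ (-(1 / 2 : ℝ)) * (n : ℝ) ^ (-(1 : ℝ)) := by
        gcongr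
        · exact ratio_le n
        · exact Pool.Agent.H73.PP.norm_co_le π n
    _ = (n : ℝ) ^ (-(3 / 2 : ℝ)) := by
        rw [one_mul, one_mul, ← Real.rpow_add hn0]
        norm_num

theorem An_zero (π : PrimChar) : An π 0 = 0 := by
  unfold An
  simp

/-- the bound including `n = 0` -/
theorem An_norm' (π : PrimChar) (n : ℕ) :
    ‖An π n‖ * Real.exp (-Real.log n) ≤ (n : ℝ) ^ (-(3 / 2 : ℝ)) := by
  rcases Nat.eq_zero_or_pos n with rfl | h
  · rw [An_zero]
    simp only [norm_zero, zero_mul]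
    positivity
  · exact An_norm π h

theorem term_eq (π : PrimChar) (n : ℕ) (x u : ℝ) :
    ((ArithmeticFunction.vonMangoldt n / Real.log n : ℝ) : ℂ) * co π n *
      (n : ℂ) ^ (-(1 / 2 + ((x : ℂ) + u * I))) =
    An π n * cexp (-(x * (Real.log n : ℝ))) * cexp (-(u * (Real.log n : ℝ)) * I) := by
  rcases Nat.eq_zero_or_pos n with rfl | h
  · rw [An_zero]
    simp
  · have hn0 : (0 : ℝ) < n := by exact_mod_cast h
    have hn : (n : ℂ) ≠ 0 := by exact_mod_cast h.ne'
    unfold An
    have e1 : (((n : ℝ) ^ (-(1 / 2 : ℝ)) : ℝ) : ℂ) = cexp (-(1 / 2 * (Real.log n : ℝ))) := by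
      rw [Real.rpow_def_of_pos hn0]
      push_cast
      congr 1
      ring
    have e2 : (n : ℂ) ^ (-(1 / 2 + ((x : ℂ) + u * I))) =
        cexp (-(1 / 2 * (Real.log n : ℝ))) * (cexp (-(x * (Real.log n : ℝ))) *
          cexp (-(u * (Real.log n : ℝ)) * I)) := by
      rw [Complex.cpow_def_of_ne_zero hn, ← Complex.exp_add, ← Complex.exp_add]
      congr 1
      rw [← Complex.natCast_log]
      ring
    rw [e1, e2]
    ring

theorem summ : Summable (fun n : ℕ => (n : ℝ) ^ (-(3 / 2 : ℝ))) :=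
  Real.summable_nat_rpow.2 (by norm_num)

theorem er (hKB : T_KB) (hKF : T_KF) (hLS : T_LS) : T_ER := by
  intro π
  obtain ⟨C, hC, hcore⟩ := core hKB hKF
  set Sg : ℝ := ∑' n : ℕ, (n : ℝ) ^ (-(3 / 2 : ℝ)) with hSg
  have hSg0 : 0 ≤ Sg := tsum_nonneg fun n => by positivity
  refine ⟨(Sg + 1) * C, 2, by positivity, ?_⟩
  intro X l τ t hX hl hlX hτ ht1 ht2
  have hX0 : 0 < X := by linarith
  have hl0 : 0 < l := by linarith
  set D : Set (ℝ × ℝ) := Icc (1 : ℝ) 2 ×ˢ Icc (X + τ) (2 * X + τ) with hD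
  have hDc : IsCompact D := isCompact_Icc.prod isCompact_Icc
  have hDm : MeasurableSet D := measurableSet_Icc.prod measurableSet_Icc
  have hd : Differentiable ℂ (Kf l t) := by
    unfold Kf
    exact hKB.1.comp (by fun_prop)
  have hLc : Continuous (fun p : ℝ × ℝ => Lp (Kf l t) th (ef X τ) p.1 p.2) :=
    continuous_Lp hd th_contDiff (ef_contDiff X τ)
  set F : ℕ → ℝ × ℝ → ℂ := fun n p =>
    cc (An π n) (Real.log n) p.1 p.2 * Lp (Kf l t) th (ef X τ) p.1 p.2 with hF
  have hFi : ∀ n, Integrable (F n) (volume.restrict D) := fun n =>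
    ((cc_cont _ _).mul hLc).continuousOn.integrableOn_compact hDc
  have hLi : Integrable (fun p : ℝ × ℝ => ‖Lp (Kf l t) th (ef X τ) p.1 p.2‖)
      (volume.restrict D) := (hLc.norm).continuousOn.integrableOn_compact hDc
  have hFn : ∀ n, ∫ p in D, ‖F n p‖ ≤ (n : ℝ) ^ (-(3 / 2 : ℝ)) *
      ∫ p in D, ‖Lp (Kf l t) th (ef X τ) p.1 p.2‖ := by
    intro n
    rw [← integral_const_mul]
    apply setIntegral_mono_on (hFi n).norm (hLi.const_mul _) hDm
    intro p hp
    simp only [hF]
    rw [norm_mul]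
    apply mul_le_mul_of_nonneg_right _ (norm_nonneg _)
    exact (cc_norm_le _ (Real.log_natCast_nonneg n) hp.1.1 _).trans (An_norm' π n)
  have hFs : Summable (fun n => ∫ p in D, ‖F n p‖) := by
    refine Summable.of_nonneg_of_le (fun n => integral_nonneg fun p => norm_nonneg _) hFn ?_
    exact summ.mul_right _
  have hsum := hasSum_integral_of_summable_integral_norm hFi hFs
  -- the sum of the series is the logarithm
  have hlog : ∀ p ∈ D, ∑' n, F n p = ((Real.log ‖π.L (1 / 2 + (p.1 + p.2 * I))‖ : ℝ) : ℂ) *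
      Lp (Kf l t) th (ef X τ) p.1 p.2 := by
    intro p hp
    have hre : 1 < (1 / 2 + ((p.1 : ℂ) + p.2 * I)).re := by
      have : (1 / 2 + ((p.1 : ℂ) + p.2 * I)).re = 1 / 2 + p.1 := by simp
      rw [this]
      linarith [hp.1.1]
    obtain ⟨s1, s2⟩ := hLS π _ hre
    simp only [hF]
    rw [tsum_mul_right, s2]
    congr 1
    have h3 := (Summable.of_norm s1).hasSum
    have h4 := (Complex.hasSum_re h3).tsum_eq
    rw [← h4, Complex.ofReal_tsum]
    refine tsum_congr fun n => ?_
    unfold cc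
    rw [term_eq]
  have hint : ∫ p in D, ((Real.log ‖π.L (1 / 2 + (p.1 + p.2 * I))‖ : ℝ) : ℂ) *
      Lp (Kf l t) th (ef X τ) p.1 p.2 = ∫ p in D, ∑' n, F n p :=
    setIntegral_congr_fun hDm fun p hp => (hlog p hp).symm
  -- the prime side
  set P : ℕ → ℂ := fun n => 2 * Real.pi * ((1 / l : ℝ) *
    (((ArithmeticFunction.vonMangoldt n * (n : ℝ) ^ (-(1 / 2 : ℝ)) *
      kk (Real.log n / l) : ℝ) : ℂ) * co π n * (n : ℂ) ^ (-(t * I)))) with hP
  have hPs : HasSum P (2 * Real.pi * Pr π l t) := by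
    have h1 : 2 * Real.pi * Pr π l t = ∑ n ∈ Finset.Icc 1 ⌊Real.exp l⌋₊, P n := by
      unfold Pr
      simp only [hP]
      rw [Finset.mul_sum, Finset.mul_sum]
    rw [h1]
    apply hasSum_sum_of_ne_finset_zero
    intro n hn
    rcases Nat.eq_zero_or_pos n with rfl | h
    · simp [hP]
    · have h2 : ⌊Real.exp l⌋₊ < n := by
        by_contra h3
        exact hn (Finset.mem_Icc.2 ⟨h, not_lt.1 h3⟩)
      have h4 : Real.exp l < n := (Nat.floor_lt (Real.exp_pos l).le).1 h2
      have h5 : l ≤ Real.log n := by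
        rw [Real.le_log_iff_exp_le (by exact_mod_cast h)]
        exact h4.le
      have h6 : kk (Real.log n / l) = 0 := by
        apply kk_zero_right
        rw [le_div_iff₀ hl0]
        linarith
      simp only [hP]
      rw [h6]
      simp
  have hPn : ∀ n, P n = 2 * Real.pi / l * (Real.log n : ℝ) * kk (Real.log n / l) * An π n *
      cexp (-(t * (Real.log n : ℝ)) * I) := by
    intro n
    rcases Nat.eq_zero_or_pos n with rfl | h
    · simp [hP]
    · have hn0 : (0 : ℝ) < n := by exact_mod_cast h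
      have hn : (n : ℂ) ≠ 0 := by exact_mod_cast h.ne'
      have e1 : (n : ℂ) ^ (-(t * I)) = cexp (-(t * (Real.log n : ℝ)) * I) := by
        rw [Complex.cpow_def_of_ne_zero hn]
        congr 1
        rw [← Complex.natCast_log]
        ring
      have e2 : ArithmeticFunction.vonMangoldt n =
          Real.log n * (ArithmeticFunction.vonMangoldt n / Real.log n) := by
        by_cases h1 : n = 1
        · rw [h1]
          simp
        · have h2 : Real.log n ≠ 0 := by
            have : 1 < (n : ℝ) := by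
              have : 1 < n := by omega
              exact_mod_cast this
            exact (Real.log_pos this).ne'
          field_simp
      simp only [hP]
      unfold An
      rw [e1]
      nth_rewrite 1 [e2]
      push_cast
      ring
  have htot : HasSum (fun n => (∫ p in D, F n p) + P n) ((∫ p in D, ∑' n, F n p) +
      2 * Real.pi * Pr π l t) := hsum.add hPs
  rw [hint, ← htot.tsum_eq]
  have hbd : ∀ n, ‖(∫ p in D, F n p) + P n‖ ≤ (n : ℝ) ^ (-(3 / 2 : ℝ)) * (C / X) := by
    intro n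
    rw [hPn]
    refine (hcore X l τ t hX hl hlX hτ ht1 ht2 (Real.log n) (An π n)
      (Real.log_natCast_nonneg n)).trans ?_
    exact mul_le_mul_of_nonneg_right (An_norm' π n) (by positivity)
  refine (tsum_of_norm_bounded (summ.hasSum.mul_right (C / X)) hbd).trans ?_
  rw [← hSg]
  calc Sg * (C / X) ≤ (Sg + 1) * (C / X) := by
        apply mul_le_mul_of_nonneg_right _ (by positivity)
        linarith
    _ = (Sg + 1) * C / X := by ring

end Pool.Agent.H62.PP
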