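import Pool.Agent.H74.PP.Targets
import Pool.Agent.H74.PP.Basic
import Pool.Agent.H62.PP.EF

/-!
# The right side of the rectangle, one frequency (ER, part a)
-/

set_option autoImplicit false

open Complex MeasureTheory Set Filter Topology

namespace Pool.Agent.H62.PP

open Pool.Agent.H74.PP
open Pool.Agent.H23.GLH (PrimChar)

theorem th_nonneg (x : ℝ) : 0 ≤ th x :=
  mul_nonneg (Real.smoothTransition.nonneg _) (Real.smoothTransition.nonneg _)

theorem th_le_one (x : ℝ) : th x ≤ 1 :=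
  mul_le_one₀ (Real.smoothTransition.le_one _) (Real.smoothTransition.nonneg _)
    (Real.smoothTransition.le_one _)

theorem th_at_one : th 1 = 1 := th_one (by norm_num)

theorem th_at_two : th 2 = 0 := th_zero (by simp)

theorem dth_at_one : deriv th 1 = 0 := by
  have h : IsLocalMax th 1 := by
    refine Eventually.of_forall fun x => ?_
    rw [th_at_one]
    exact th_le_one x
  exact h.deriv_eq_zero

theorem dth_at_two : deriv th 2 = 0 := by
  have h : IsLocalMin th 2 := by
    refine Eventually.of_forall fun x => ?_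
    rw [th_at_two]
    exact th_nonneg x
  exact h.deriv_eq_zero

theorem contDiff_one_deriv {θ : ℝ → ℝ} (h : ContDiff ℝ 2 θ) : ContDiff ℝ 1 (deriv θ) := by
  have h4 : ContDiff ℝ (1 + 1) θ := by
    rw [one_add_one_eq_two]
    exact h
  exact (contDiff_succ_iff_deriv.1 h4).2.2

theorem cont_d1 {θ : ℝ → ℝ} (h : ContDiff ℝ 2 θ) : Continuous (deriv θ) :=
  h.continuous_deriv (by norm_num)

theorem cont_d2 {θ : ℝ → ℝ} (h : ContDiff ℝ 2 θ) : Continuous (deriv (deriv θ)) :=
  (contDiff_one_deriv h).continuous_deriv le_rfl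

/-- constant bounds for the cutoffs -/
theorem bounds : ∃ B : ℝ, 1 ≤ B ∧ (∀ x ∈ Icc (1 : ℝ) 2, |th x| ≤ B ∧ |deriv th x| ≤ B ∧
    |deriv (deriv th) x| ≤ B) ∧ ∀ u : ℝ, |deriv et u| ≤ B ∧ |deriv (deriv et) u| ≤ B := by
  obtain ⟨B1, hB1⟩ := (isCompact_Icc (a := (1 : ℝ)) (b := 2)).exists_bound_of_continuousOn
    (cont_d1 th_contDiff).continuousOn
  obtain ⟨B2, hB2⟩ := (isCompact_Icc (a := (1 : ℝ)) (b := 2)).exists_bound_of_continuousOn
    (cont_d2 th_contDiff).continuousOn
  have hcs : HasCompactSupport et := by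
    apply HasCompactSupport.intro (isCompact_Icc (a := (1 : ℝ)) (b := 2))
    intro x hx
    exact et_zero fun h => hx ⟨h.1.le, h.2.le⟩
  obtain ⟨B3, hB3⟩ := (cont_d1 et_contDiff).bounded_above_of_compact_support hcs.deriv
  obtain ⟨B4, hB4⟩ := (cont_d2 et_contDiff).bounded_above_of_compact_support hcs.deriv.deriv
  refine ⟨max 1 (max (max B1 B2) (max B3 B4)), le_max_left _ _, ?_, ?_⟩
  · intro x hx
    refine ⟨?_, ?_, ?_⟩
    · rw [abs_of_nonneg (th_nonneg x)]
      exact (th_le_one x).trans (le_max_left _ _)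
    · exact (hB1 x hx).trans (((le_max_left _ _).trans (le_max_left _ _)).trans (le_max_right _ _))
    · exact (hB2 x hx).trans (((le_max_right _ _).trans (le_max_left _ _)).trans (le_max_right _ _))
  · intro u
    refine ⟨?_, ?_⟩
    · exact (hB3 u).trans (((le_max_left _ _).trans (le_max_right _ _)).trans (le_max_right _ _))
    · exact (hB4 u).trans (((le_max_right _ _).trans (le_max_right _ _)).trans (le_max_right _ _))

theorem et_one {u : ℝ} (h1 : 9 / 8 ≤ u) (h2 : u ≤ 15 / 8) : et u = 1 := by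
  unfold et
  rw [Real.smoothTransition.one_of_one_le (by linarith),
    Real.smoothTransition.one_of_one_le (by linarith), one_mul]

theorem deriv_ef (X τ u : ℝ) : deriv (ef X τ) u = deriv et ((u - τ) / X) / X := by
  have h1 : HasDerivAt et (deriv et ((u - τ) / X)) ((u - τ) / X) :=
    (et_contDiff.differentiable (by norm_num) _).hasDerivAt
  have h2 : HasDerivAt (fun u : ℝ => (u - τ) / X) (1 / X) u :=
    ((hasDerivAt_id u).sub_const τ).div_const X
  have h3 := (h1.comp u h2).deriv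
  have h4 : ef X τ = et ∘ fun u => (u - τ) / X := rfl
  rw [h4, h3]
  ring

theorem deriv2_ef (X τ u : ℝ) :
    deriv (deriv (ef X τ)) u = deriv (deriv et) ((u - τ) / X) / X ^ 2 := by
  have h0 : deriv (ef X τ) = fun u => deriv et ((u - τ) / X) / X := funext (deriv_ef X τ)
  have h1 : HasDerivAt (deriv et) (deriv (deriv et) ((u - τ) / X)) ((u - τ) / X) :=
    ((contDiff_one_deriv et_contDiff).differentiable (by norm_num) _).hasDerivAt
  have h2 : HasDerivAt (fun u : ℝ => (u - τ) / X) (1 / X) u :=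
    ((hasDerivAt_id u).sub_const τ).div_const X
  have h3 := ((h1.comp u h2).div_const X).deriv
  rw [h0]
  simp only [Function.comp_def] at h3
  rw [h3]
  ring

theorem deriv_Kf (hK : Differentiable ℂ KK) (l t : ℝ) (z : ℂ) :
    deriv (Kf l t) z = l * deriv KK (l * (z - t * I)) := by
  have h1 : HasDerivAt KK (deriv KK (l * (z - t * I))) (l * (z - t * I)) := (hK _).hasDerivAt
  have h2 : HasDerivAt (fun z : ℂ => (l : ℂ) * (z - t * I)) (l * 1) z :=
    ((hasDerivAt_id z).sub_const _).const_mul _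
  have h3 := (h1.comp z h2).deriv
  have h4 : Kf l t = KK ∘ fun z => (l : ℂ) * (z - t * I) := rfl
  rw [h4, h3]
  ring

theorem kk_zero_left {ξ : ℝ} (h : ξ ≤ 1 / 4) : kk ξ = 0 := by
  unfold kk
  rw [Real.smoothTransition.zero_of_nonpos (by linarith), zero_mul]

theorem kk_zero_right {ξ : ℝ} (h : 1 ≤ ξ) : kk ξ = 0 := by
  unfold kk
  rw [Real.smoothTransition.zero_of_nonpos (x := 4 - 4 * ξ) (by linarith), mul_zero]

/-- the part of the integrand without the vertical cutoff -/
noncomputable def W1 (l t x u : ℝ) : ℂ :=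
  Kf l t (x + u * I) * ((deriv (deriv th) x : ℝ) : ℂ) +
    2 * deriv (Kf l t) (x + u * I) * ((deriv th x : ℝ) : ℂ)

/-- the size of the kernel -/
theorem kernel_le (hKB : T_KB) : ∃ C : ℝ, 0 < C ∧ ∀ X l t x u : ℝ, 1 ≤ X → 1 ≤ l →
    l ≤ Real.log X → x ∈ Icc (1 : ℝ) 2 →
    ‖Kf l t (x + u * I)‖ ≤ C * X ^ 3 / (1 + |u - t|) ^ 6 ∧
    ‖deriv (Kf l t) (x + u * I)‖ ≤ C * X ^ 3 / (1 + |u - t|) ^ 6 := by
  obtain ⟨hd, hb⟩ := hKB
  obtain ⟨C, hC, hb⟩ := hb 6
  refine ⟨C, hC, ?_⟩
  intro X l t x u hX hl hlX hx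
  have hX0 : 0 < X := by linarith
  set w : ℂ := l * ((x : ℂ) + u * I - t * I) with hw
  have hwre : w.re = l * x := by
    rw [hw]
    simp
  have hwim : w.im = l * (u - t) := by
    rw [hw]
    simp
  have hmax : max w.re (w.re / 4) = l * x := by
    rw [hwre, max_eq_left]
    have : 0 ≤ l * x := mul_nonneg (by linarith) (by linarith [hx.1])
    linarith
  have hexp : Real.exp (l * x) ≤ X ^ 2 := by
    calc Real.exp (l * x) ≤ Real.exp (2 * Real.log X) := by
          apply Real.exp_le_exp.2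
          nlinarith [hx.1, hx.2]
      _ = X ^ 2 := by
          rw [two_mul, Real.exp_add, Real.exp_log hX0]
          ring
  have hlw : |u - t| ≤ ‖w‖ := by
    calc |u - t| = 1 * |u - t| := (one_mul _).symm
      _ ≤ l * |u - t| := mul_le_mul_of_nonneg_right hl (abs_nonneg _)
      _ = |w.im| := by rw [hwim, abs_mul, abs_of_nonneg (by linarith : (0 : ℝ) ≤ l)]
      _ ≤ ‖w‖ := Complex.abs_im_le_norm w
  have hpow : (1 + |u - t|) ^ 6 ≤ (1 + ‖w‖) ^ 6 := by
    apply pow_le_pow_left₀ (by positivity)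
    linarith
  have hp0 : 0 < (1 + |u - t|) ^ 6 := by positivity
  obtain ⟨h1, h2, _⟩ := hb w
  rw [hmax] at h1 h2
  have hlX' : l ≤ X := hlX.trans (by
    have := Real.log_le_sub_one_of_pos hX0
    linarith)
  constructor
  · rw [le_div_iff₀ hp0]
    calc ‖Kf l t (x + u * I)‖ * (1 + |u - t|) ^ 6 ≤ ‖KK w‖ * (1 + ‖w‖) ^ 6 :=
          mul_le_mul_of_nonneg_left hpow (norm_nonneg _)
      _ ≤ C * Real.exp (l * x) := h1
      _ ≤ C * X ^ 2 := mul_le_mul_of_nonneg_left hexp hC.le
      _ ≤ C * X ^ 3 := by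
          apply mul_le_mul_of_nonneg_left _ hC.le
          exact pow_le_pow_right₀ hX (by norm_num)
  · rw [le_div_iff₀ hp0, deriv_Kf hd, ← hw, norm_mul, Complex.norm_real,
      Real.norm_of_nonneg (by linarith : (0 : ℝ) ≤ l)]
    calc l * ‖deriv KK w‖ * (1 + |u - t|) ^ 6 ≤ X * ‖deriv KK w‖ * (1 + ‖w‖) ^ 6 := by
          apply mul_le_mul _ hpow hp0.le (by positivity)
          exact mul_le_mul_of_nonneg_right hlX' (norm_nonneg _)
      _ = X * (‖deriv KK w‖ * (1 + ‖w‖) ^ 6) := by ring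
      _ ≤ X * (C * Real.exp (l * x)) := mul_le_mul_of_nonneg_left h2 hX0.le
      _ ≤ X * (C * X ^ 2) := by
          apply mul_le_mul_of_nonneg_left _ hX0.le
          exact mul_le_mul_of_nonneg_left hexp hC.le
      _ = C * X ^ 3 := by ring

/-- the error in removing the vertical cutoff -/
theorem err_le (hKB : T_KB) : ∃ C : ℝ, 0 < C ∧ ∀ X l τ t x u : ℝ, 2 ≤ X → 1 ≤ l →
    l ≤ Real.log X → |τ| ≤ X / 8 → 5 * X / 4 + τ ≤ t → t ≤ 7 * X / 4 + τ → x ∈ Icc (1 : ℝ) 2 →
    ‖Lp (Kf l t) th (ef X τ) x u - W1 l t x u‖ ≤ C / X * (1 + (u - t) ^ 2)⁻¹ := by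
  obtain ⟨C, hC, hK⟩ := kernel_le hKB
  obtain ⟨B, hB, hth, het⟩ := bounds
  refine ⟨C * (6 * B ^ 2) * 8 ^ 4, by positivity, ?_⟩
  intro X l τ t x u hX hl hlX hτ ht1 ht2 hx
  have hX0 : 0 < X := by linarith
  have hB0 : 0 < B := by linarith
  obtain ⟨hk1, hk2⟩ := hK X l t x u (by linarith) hl hlX hx
  obtain ⟨a0, a1, a2⟩ := hth x hx
  by_cases hnear : |u - t| < X / 8
  · -- the cutoff is one nearby
    have hev : ef X τ =ᶠ[𝓝 u] fun _ => 1 := by
      have h1 : ∀ᶠ v in 𝓝 u, |v - t| < X / 8 := by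
        have h2 : Continuous fun v : ℝ => |v - t| := by fun_prop
        exact h2.continuousAt.eventually_lt_const hnear
      filter_upwards [h1] with v hv
      rw [abs_lt] at hv
      apply et_one
      · rw [le_div_iff₀ hX0]
        linarith
      · rw [div_le_iff₀ hX0]
        linarith
    have e0 : ef X τ u = 1 := hev.self_of_nhds
    have e1 : deriv (ef X τ) =ᶠ[𝓝 u] fun _ => 0 := by
      have := hev.deriv
      simpa using this
    have e2 : deriv (ef X τ) u = 0 := e1.self_of_nhds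
    have e3 : deriv (deriv (ef X τ)) u = 0 := by
      have := e1.deriv
      simpa using this.self_of_nhds
    have h0 : Lp (Kf l t) th (ef X τ) x u - W1 l t x u = 0 := by
      unfold Pool.Agent.H74.PP.Lp W1
      rw [e0, e2, e3]
      push_cast
      ring
    rw [h0, norm_zero]
    positivity
  · push Not at hnear
    have hη : |ef X τ u - 1| ≤ 1 := by
      have h1 := et_nonneg ((u - τ) / X)
      have h2 := et_le_one ((u - τ) / X)
      unfold ef
      rw [abs_le]
      constructor <;> linarith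
    have hη1 : |deriv (ef X τ) u| ≤ B := by
      rw [deriv_ef, abs_div, abs_of_pos hX0]
      calc |deriv et ((u - τ) / X)| / X ≤ |deriv et ((u - τ) / X)| / 1 :=
            div_le_div_of_nonneg_left (abs_nonneg _) one_pos (by linarith)
        _ ≤ B := by
            rw [div_one]
            exact (het _).1
    have hη2 : |deriv (deriv (ef X τ)) u| ≤ B := by
      rw [deriv2_ef, abs_div, abs_of_pos (by positivity : 0 < X ^ 2)]
      calc |deriv (deriv et) ((u - τ) / X)| / X ^ 2 ≤ |deriv (deriv et) ((u - τ) / X)| / 1 :=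
            div_le_div_of_nonneg_left (abs_nonneg _) one_pos (by nlinarith)
        _ ≤ B := by
            rw [div_one]
            exact (het _).2
    have hid : Lp (Kf l t) th (ef X τ) x u - W1 l t x u =
        Kf l t (x + u * I) * ((deriv (deriv th) x * (ef X τ u - 1) +
          th x * deriv (deriv (ef X τ)) u : ℝ) : ℂ) +
        2 * deriv (Kf l t) (x + u * I) * (((deriv th x * (ef X τ u - 1) : ℝ) : ℂ) +
          I * ((th x * deriv (ef X τ) u : ℝ) : ℂ)) := by
      unfold Pool.Agent.H74.PP.Lp W1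
      push_cast
      ring
    have n1 : ‖((deriv (deriv th) x * (ef X τ u - 1) +
          th x * deriv (deriv (ef X τ)) u : ℝ) : ℂ)‖ ≤ 2 * B ^ 2 := by
      rw [Complex.norm_real, Real.norm_eq_abs]
      calc |deriv (deriv th) x * (ef X τ u - 1) + th x * deriv (deriv (ef X τ)) u|
          ≤ |deriv (deriv th) x * (ef X τ u - 1)| + |th x * deriv (deriv (ef X τ)) u| :=
            abs_add_le _ _
        _ ≤ B * 1 + B * B := by
            rw [abs_mul, abs_mul]
            exact add_le_add (mul_le_mul a2 hη (abs_nonneg _) hB0.le)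
              (mul_le_mul a0 hη2 (abs_nonneg _) hB0.le)
        _ ≤ 2 * B ^ 2 := by nlinarith
    have n2 : ‖((deriv th x * (ef X τ u - 1) : ℝ) : ℂ) +
          I * ((th x * deriv (ef X τ) u : ℝ) : ℂ)‖ ≤ 2 * B ^ 2 := by
      calc ‖((deriv th x * (ef X τ u - 1) : ℝ) : ℂ) + I * ((th x * deriv (ef X τ) u : ℝ) : ℂ)‖
          ≤ ‖((deriv th x * (ef X τ u - 1) : ℝ) : ℂ)‖ + ‖I * ((th x * deriv (ef X τ) u : ℝ) : ℂ)‖ :=
            norm_add_le _ _
        _ ≤ B * 1 + B * B := by
            rw [norm_mul, Complex.norm_I, one_mul, Complex.norm_real, Complex.norm_real,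
              Real.norm_eq_abs, Real.norm_eq_abs, abs_mul, abs_mul]
            exact add_le_add (mul_le_mul a1 hη (abs_nonneg _) hB0.le)
              (mul_le_mul a0 hη1 (abs_nonneg _) hB0.le)
        _ ≤ 2 * B ^ 2 := by nlinarith
    set Q : ℝ := C * X ^ 3 / (1 + |u - t|) ^ 6 with hQ
    have hQ0 : 0 ≤ Q := by positivity
    have h5 : ‖Lp (Kf l t) th (ef X τ) x u - W1 l t x u‖ ≤ Q * (6 * B ^ 2) := by
      rw [hid]
      refine (norm_add_le _ _).trans ?_
      rw [norm_mul, norm_mul, norm_mul]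
      have h2 : ‖(2 : ℂ)‖ = 2 := by norm_num
      rw [h2]
      have h6 : ‖Kf l t (x + u * I)‖ * ‖((deriv (deriv th) x * (ef X τ u - 1) +
          th x * deriv (deriv (ef X τ)) u : ℝ) : ℂ)‖ ≤ Q * (2 * B ^ 2) :=
        mul_le_mul hk1 n1 (norm_nonneg _) hQ0
      have h7 : 2 * ‖deriv (Kf l t) (x + u * I)‖ * ‖((deriv th x * (ef X τ u - 1) : ℝ) : ℂ) +
          I * ((th x * deriv (ef X τ) u : ℝ) : ℂ)‖ ≤ 2 * Q * (2 * B ^ 2) :=
        mul_le_mul (by linarith) n2 (norm_nonneg _) (by positivity)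
      linarith
    refine h5.trans ?_
    -- the decay
    have h8 : (X / 8) ^ 4 ≤ (1 + |u - t|) ^ 4 :=
      pow_le_pow_left₀ (by positivity) (by linarith) 4
    have h9 : 1 + (u - t) ^ 2 ≤ (1 + |u - t|) ^ 2 := by
      have := sq_abs (u - t)
      nlinarith [abs_nonneg (u - t)]
    have h10 : (X / 8) ^ 4 * (1 + (u - t) ^ 2) ≤ (1 + |u - t|) ^ 6 := by
      calc (X / 8) ^ 4 * (1 + (u - t) ^ 2) ≤ (1 + |u - t|) ^ 4 * (1 + |u - t|) ^ 2 :=
            mul_le_mul h8 h9 (by positivity) (by positivity)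
        _ = (1 + |u - t|) ^ 6 := by ring
    have h11 : Q ≤ C * X ^ 3 / ((X / 8) ^ 4 * (1 + (u - t) ^ 2)) :=
      div_le_div_of_nonneg_left (by positivity) (by positivity) h10
    calc Q * (6 * B ^ 2) ≤ C * X ^ 3 / ((X / 8) ^ 4 * (1 + (u - t) ^ 2)) * (6 * B ^ 2) :=
          mul_le_mul_of_nonneg_right h11 (by positivity)
      _ = C * (6 * B ^ 2) * 8 ^ 4 / X * (1 + (u - t) ^ 2)⁻¹ := by
          field_simp

end Pool.Agent.H62.PP
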