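import Pool.Agent.H62.PP.ERa

/-!
# The right side of the rectangle, one frequency (ER, part b)
-/

set_option autoImplicit false

open Complex MeasureTheory Set Filter Topology

namespace Pool.Agent.H62.PP

open Pool.Agent.H74.PP
open Pool.Agent.H23.GLH (PrimChar)

/-- one frequency -/
noncomputable def cc (A : ℂ) (y x u : ℝ) : ℂ :=
  (((A * cexp (-(x * y)) * cexp (-(u * y) * I)).re : ℝ) : ℂ)

theorem cc_eq (A : ℂ) (y x u : ℝ) : cc A y x u =
    1 / 2 * (A * cexp (-(x * y)) * cexp (-(u * y) * I) +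
      (starRingEnd ℂ) A * cexp (-(x * y)) * cexp (-(u * ((-y : ℝ) : ℂ)) * I)) := by
  unfold cc
  rw [Complex.re_eq_add_conj]
  rw [map_mul, map_mul, ← Complex.exp_conj, ← Complex.exp_conj]
  have e1 : (starRingEnd ℂ) (-((x : ℂ) * y)) = -(x * y) := by
    simp
  have e2 : (starRingEnd ℂ) (-((u : ℂ) * y) * I) = -(u * ((-y : ℝ) : ℂ)) * I := by
    simp
  rw [e1, e2]
  ring

theorem cc_norm_le (A : ℂ) {y x : ℝ} (hy : 0 ≤ y) (hx : 1 ≤ x) (u : ℝ) :
    ‖cc A y x u‖ ≤ ‖A‖ * Real.exp (-y) := by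
  unfold cc
  rw [Complex.norm_real]
  refine (Complex.abs_re_le_norm _).trans ?_
  rw [norm_mul, norm_mul]
  have e1 : ‖cexp (-((x : ℂ) * y))‖ = Real.exp (-(x * y)) := by
    rw [Complex.norm_exp]
    simp
  have e2 : ‖cexp (-((u : ℂ) * y) * I)‖ = 1 := by
    rw [Complex.norm_exp]
    simp
  rw [e1, e2, mul_one]
  apply mul_le_mul_of_nonneg_left _ (norm_nonneg _)
  apply Real.exp_le_exp.2
  nlinarith

theorem cc_cont (A : ℂ) (y : ℝ) : Continuous (fun p : ℝ × ℝ => cc A y p.1 p.2) := by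
  unfold cc
  fun_prop

/-- the main term -/
noncomputable def Mn (A : ℂ) (y l t x : ℝ) : ℂ :=
  1 / 2 * A * (2 * Real.pi / l) * kk (y / l) * cexp (-(t * y) * I) *
    ((deriv (deriv th) x + 2 * y * deriv th x : ℝ) : ℂ)

theorem main_term (hKB : T_KB) (hKF : T_KF) (A : ℂ) {y l : ℝ} (t x : ℝ) (hy : 0 ≤ y) (hl : 0 < l) :
    Integrable (fun u : ℝ => cc A y x u * W1 l t x u) ∧
    ∫ u : ℝ, cc A y x u * W1 l t x u = Mn A y l t x := by
  obtain ⟨i1, i2, f1, f2⟩ := hKF l x t y hl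
  obtain ⟨j1, j2, g1, g2⟩ := hKF l x t (-y) hl
  have hk : kk (-y / l) = 0 := by
    apply kk_zero_left
    have : -y / l ≤ 0 := div_nonpos_of_nonpos_of_nonneg (by linarith) hl.le
    linarith
  rw [hk] at g1 g2
  have hfun : (fun u : ℝ => cc A y x u * W1 l t x u) = fun u : ℝ =>
      (1 / 2 * A * cexp (-(x * y)) * ((deriv (deriv th) x : ℝ) : ℂ)) *
        (KK (l * (x + u * I - t * I)) * cexp (-(u * y) * I)) +
      (1 / 2 * A * cexp (-(x * y)) * (2 * ((deriv th x : ℝ) : ℂ))) *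
        (l * deriv KK (l * (x + u * I - t * I)) * cexp (-(u * y) * I)) +
      ((1 / 2 * (starRingEnd ℂ) A * cexp (-(x * y)) * ((deriv (deriv th) x : ℝ) : ℂ)) *
        (KK (l * (x + u * I - t * I)) * cexp (-(u * ((-y : ℝ) : ℂ)) * I)) +
      (1 / 2 * (starRingEnd ℂ) A * cexp (-(x * y)) * (2 * ((deriv th x : ℝ) : ℂ))) *
        (l * deriv KK (l * (x + u * I - t * I)) * cexp (-(u * ((-y : ℝ) : ℂ)) * I))) := by
    funext u
    rw [cc_eq]
    unfold W1
    rw [deriv_Kf hKB.1]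
    unfold Kf
    ring
  rw [hfun]
  have a1 := i1.const_mul (1 / 2 * A * cexp (-(x * y)) * ((deriv (deriv th) x : ℝ) : ℂ))
  have a2 := i2.const_mul (1 / 2 * A * cexp (-(x * y)) * (2 * ((deriv th x : ℝ) : ℂ)))
  have a3 := j1.const_mul
    (1 / 2 * (starRingEnd ℂ) A * cexp (-(x * y)) * ((deriv (deriv th) x : ℝ) : ℂ))
  have a4 := j2.const_mul
    (1 / 2 * (starRingEnd ℂ) A * cexp (-(x * y)) * (2 * ((deriv th x : ℝ) : ℂ)))
  have b1 : Integrable (fun u : ℝ => (1 / 2 * A * cexp (-(x * y)) * ((deriv (deriv th) x : ℝ) : ℂ)) *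
        (KK (l * (x + u * I - t * I)) * cexp (-(u * y) * I)) +
      (1 / 2 * A * cexp (-(x * y)) * (2 * ((deriv th x : ℝ) : ℂ))) *
        (l * deriv KK (l * (x + u * I - t * I)) * cexp (-(u * y) * I))) := a1.add a2
  have b2 : Integrable (fun u : ℝ =>
      (1 / 2 * (starRingEnd ℂ) A * cexp (-(x * y)) * ((deriv (deriv th) x : ℝ) : ℂ)) *
        (KK (l * (x + u * I - t * I)) * cexp (-(u * ((-y : ℝ) : ℂ)) * I)) +
      (1 / 2 * (starRingEnd ℂ) A * cexp (-(x * y)) * (2 * ((deriv th x : ℝ) : ℂ))) *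
        (l * deriv KK (l * (x + u * I - t * I)) * cexp (-(u * ((-y : ℝ) : ℂ)) * I))) := a3.add a4
  constructor
  · exact b1.add b2
  · rw [integral_add b1 b2, integral_add a1 a2, integral_add a3 a4,
      integral_const_mul, integral_const_mul, integral_const_mul, integral_const_mul,
      f1, f2, g1, g2]
    unfold Mn
    have h1 : cexp (-(x * y)) * cexp (x * y) = 1 := by
      rw [← Complex.exp_add, neg_add_cancel, Complex.exp_zero]
    push_cast
    linear_combination (1 / 2 * A * ((deriv (deriv th) x : ℝ) : ℂ) * (2 * Real.pi / l) *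
      (kk (y / l) : ℂ) * cexp (-(t * y) * I) + A * ((deriv th x : ℝ) : ℂ) * (2 * Real.pi / l) * y *
      (kk (y / l) : ℂ) * cexp (-(t * y) * I)) * h1

theorem Mn_cont (A : ℂ) (y l t : ℝ) : Continuous (Mn A y l t) := by
  unfold Mn
  have h1 := cont_d1 th_contDiff
  have h2 := cont_d2 th_contDiff
  fun_prop

theorem Mn_int (A : ℂ) (y l t : ℝ) : ∫ x in Icc (1 : ℝ) 2, Mn A y l t x =
    -(2 * Real.pi / l * y * kk (y / l) * A * cexp (-(t * y) * I)) := by
  have h1 : ∫ x in (1 : ℝ)..2, deriv th x = -1 := by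
    rw [intervalIntegral.integral_deriv_eq_sub
      (fun x _ => th_contDiff.differentiable (by norm_num) x)
      ((cont_d1 th_contDiff).intervalIntegrable _ _), th_at_two, th_at_one]
    norm_num
  have h2 : ∫ x in (1 : ℝ)..2, deriv (deriv th) x = 0 := by
    rw [intervalIntegral.integral_deriv_eq_sub
      (fun x _ => (contDiff_one_deriv th_contDiff).differentiable (by norm_num) x)
      ((cont_d2 th_contDiff).intervalIntegrable _ _), dth_at_two, dth_at_one]
    norm_num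
  have h3 : ∫ x in (1 : ℝ)..2, (deriv (deriv th) x + 2 * y * deriv th x) = -(2 * y) := by
    rw [intervalIntegral.integral_add ((cont_d2 th_contDiff).intervalIntegrable _ _)
      (((cont_d1 th_contDiff).intervalIntegrable _ _).const_mul _),
      intervalIntegral.integral_const_mul, h1, h2]
    ring
  rw [integral_Icc_eq_integral_Ioc, ← intervalIntegral.integral_of_le (by norm_num : (1 : ℝ) ≤ 2)]
  unfold Mn
  rw [intervalIntegral.integral_const_mul, intervalIntegral.integral_ofReal, h3]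
  push_cast
  ring

theorem W1_cont (hKB : T_KB) (l t : ℝ) : Continuous (fun p : ℝ × ℝ => W1 l t p.1 p.2) := by
  have hd : Differentiable ℂ (Kf l t) := by
    unfold Kf
    exact hKB.1.comp (by fun_prop)
  have hK1 : Continuous (Kf l t) := hd.continuous
  have hK2 : Continuous (deriv (Kf l t)) := by
    have : ContDiff ℂ 1 (Kf l t) := hd.contDiff
    exact this.continuous_deriv le_rfl
  have h1 := cont_d1 th_contDiff
  have h2 := cont_d2 th_contDiff
  unfold W1
  fun_prop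

theorem core (hKB : T_KB) (hKF : T_KF) : ∃ C : ℝ, 0 < C ∧ ∀ X l τ t : ℝ, 2 ≤ X → 1 ≤ l →
    l ≤ Real.log X → |τ| ≤ X / 8 → 5 * X / 4 + τ ≤ t → t ≤ 7 * X / 4 + τ → ∀ (y : ℝ) (A : ℂ),
    0 ≤ y → ‖(∫ p in Icc (1 : ℝ) 2 ×ˢ Icc (X + τ) (2 * X + τ),
        cc A y p.1 p.2 * Lp (Kf l t) th (ef X τ) p.1 p.2) +
      2 * Real.pi / l * y * kk (y / l) * A * cexp (-(t * y) * I)‖ ≤ ‖A‖ * Real.exp (-y) * (C / X) := by
  obtain ⟨C, hC, hE⟩ := err_le hKB
  refine ⟨C * Real.pi, by positivity, ?_⟩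
  intro X l τ t hX hl hlX hτ ht1 ht2 y A hy
  have hX0 : 0 < X := by linarith
  have hl0 : 0 < l := by linarith
  set J : Set ℝ := Icc (X + τ) (2 * X + τ) with hJ
  have hd : Differentiable ℂ (Kf l t) := by
    unfold Kf
    exact hKB.1.comp (by fun_prop)
  have hLc : Continuous (fun p : ℝ × ℝ => Lp (Kf l t) th (ef X τ) p.1 p.2) :=
    continuous_Lp hd th_contDiff (ef_contDiff X τ)
  have hgc : Continuous (fun p : ℝ × ℝ => cc A y p.1 p.2 * Lp (Kf l t) th (ef X τ) p.1 p.2) :=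
    (cc_cont A y).mul hLc
  have hgi : IntegrableOn (fun p : ℝ × ℝ => cc A y p.1 p.2 * Lp (Kf l t) th (ef X τ) p.1 p.2)
      (Icc (1 : ℝ) 2 ×ˢ J) (volume.prod volume) :=
    hgc.continuousOn.integrableOn_compact (isCompact_Icc.prod isCompact_Icc)
  have hslice : ∀ x : ℝ, ∫ u in J, cc A y x u * Lp (Kf l t) th (ef X τ) x u =
      ∫ u : ℝ, cc A y x u * Lp (Kf l t) th (ef X τ) x u := by
    intro x
    apply setIntegral_eq_integral_of_forall_compl_eq_zero
    intro u hu
    have hev : ef X τ =ᶠ[𝓝 u] fun _ => 0 := by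
      filter_upwards [isClosed_Icc.isOpen_compl.mem_nhds hu] with v hv
      exact ef_zero hX0 fun h => hv ⟨h.1.le, h.2.le⟩
    have e0 : ef X τ u = 0 := hev.self_of_nhds
    have e1 : deriv (ef X τ) =ᶠ[𝓝 u] fun _ => 0 := by
      have := hev.deriv
      simpa using this
    have e2 : deriv (ef X τ) u = 0 := e1.self_of_nhds
    have e3 : deriv (deriv (ef X τ)) u = 0 := by
      have := e1.deriv
      simpa using this.self_of_nhds
    unfold Pool.Agent.H74.PP.Lp
    rw [e0, e2, e3]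
    simp
  have hpt : ∀ x ∈ Icc (1 : ℝ) 2, ‖(∫ u in J, cc A y x u * Lp (Kf l t) th (ef X τ) x u) -
      Mn A y l t x‖ ≤ ‖A‖ * Real.exp (-y) * (C * Real.pi / X) := by
    intro x hx
    obtain ⟨m1, m2⟩ := main_term hKB hKF A t x hy hl0
    have hbd : ∀ u : ℝ, ‖cc A y x u * (Lp (Kf l t) th (ef X τ) x u - W1 l t x u)‖ ≤
        ‖A‖ * Real.exp (-y) * (C / X) * (1 + (u - t) ^ 2)⁻¹ := by
      intro u
      rw [norm_mul]
      calc ‖cc A y x u‖ * ‖Lp (Kf l t) th (ef X τ) x u - W1 l t x u‖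
          ≤ (‖A‖ * Real.exp (-y)) * (C / X * (1 + (u - t) ^ 2)⁻¹) :=
            mul_le_mul (cc_norm_le A hy hx.1 u) (hE X l τ t x u hX hl hlX hτ ht1 ht2 hx)
              (norm_nonneg _) (by positivity)
        _ = _ := by ring
    have hbi : Integrable (fun u : ℝ => ‖A‖ * Real.exp (-y) * (C / X) * (1 + (u - t) ^ 2)⁻¹) :=
      (integrable_inv_one_add_sq.comp_sub_right t).const_mul _
    have hmeas : Continuous (fun u : ℝ => cc A y x u *
        (Lp (Kf l t) th (ef X τ) x u - W1 l t x u)) := by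
      have h1 : Continuous fun u : ℝ => (x, u) := by fun_prop
      have c1 := (cc_cont A y).comp h1
      have c2 := hLc.comp h1
      have c3 := (W1_cont hKB l t).comp h1
      exact c1.mul (c2.sub c3)
    have hei : Integrable (fun u : ℝ => cc A y x u *
        (Lp (Kf l t) th (ef X τ) x u - W1 l t x u)) :=
      hbi.mono' hmeas.aestronglyMeasurable (Eventually.of_forall hbd)
    have hsplit : ∫ u : ℝ, cc A y x u * Lp (Kf l t) th (ef X τ) x u =
        Mn A y l t x + ∫ u : ℝ, cc A y x u * (Lp (Kf l t) th (ef X τ) x u - W1 l t x u) := by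
      rw [← m2, ← integral_add m1 hei]
      refine integral_congr_ae (Eventually.of_forall fun u => ?_)
      dsimp only
      ring
    rw [hslice, hsplit, add_sub_cancel_left]
    refine (norm_integral_le_of_norm_le hbi (Eventually.of_forall hbd)).trans ?_
    rw [integral_const_mul, integral_sub_right_eq_self (fun u : ℝ => (1 + u ^ 2)⁻¹) t,
      integral_univ_inv_one_add_sq]
    apply le_of_eq
    ring
  have hfub : ∫ p in Icc (1 : ℝ) 2 ×ˢ J, cc A y p.1 p.2 * Lp (Kf l t) th (ef X τ) p.1 p.2 =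
      ∫ x in Icc (1 : ℝ) 2, ∫ u in J, cc A y x u * Lp (Kf l t) th (ef X τ) x u := by
    rw [Measure.volume_eq_prod, setIntegral_prod _ hgi]
  have hIi : IntegrableOn (fun x => ∫ u in J, cc A y x u * Lp (Kf l t) th (ef X τ) x u)
      (Icc (1 : ℝ) 2) := by
    have h1 := hgi
    unfold IntegrableOn at h1
    rw [← Measure.prod_restrict] at h1
    exact h1.integral_prod_left
  have hMi : IntegrableOn (Mn A y l t) (Icc (1 : ℝ) 2) :=
    (Mn_cont A y l t).continuousOn.integrableOn_compact isCompact_Icc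
  have hfin : (∫ p in Icc (1 : ℝ) 2 ×ˢ J, cc A y p.1 p.2 * Lp (Kf l t) th (ef X τ) p.1 p.2) +
      2 * Real.pi / l * y * kk (y / l) * A * cexp (-(t * y) * I) =
      ∫ x in Icc (1 : ℝ) 2, ((∫ u in J, cc A y x u * Lp (Kf l t) th (ef X τ) x u) -
        Mn A y l t x) := by
    rw [integral_sub hIi hMi, Mn_int, hfub]
    ring
  rw [hfin]
  have hle := norm_setIntegral_le_of_norm_le_const (μ := volume) (s := Icc (1 : ℝ) 2)
    (C := ‖A‖ * Real.exp (-y) * (C * Real.pi / X)) (by simp) hpt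
  have hv : volume.real (Icc (1 : ℝ) 2) = 1 := by
    rw [Real.volume_real_Icc_of_le (by norm_num)]
    norm_num
  rw [hv, mul_one] at hle
  exact hle

end Pool.Agent.H62.PP
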